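import Pool.Agent.LibGP76.Defs

/-! Basic facts about regular uncountable well-orders. -/

set_option autoImplicit false

namespace Pool.Agent.LibGP76

open Cardinal Set

universe u

variable {K : Type u} [LinearOrder K]

theorem exists_sup (h : RegK K) {ι : Type u} (hι : #ι < #K) (f : ι → K) : ∃ c, ∀ i, f i < c := by
  obtain ⟨c, hc⟩ := h.reg (range f) (mk_range_le.trans_lt hι)
  exact ⟨c, fun i => hc _ ⟨i, rfl⟩⟩

theorem exists_sup_nat (h : RegK K) (f : ℕ → K) : ∃ c, ∀ n, f n < c := by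
  obtain ⟨c, hc⟩ := h.reg (range f) ((le_aleph0_iff_set_countable.2 (countable_range f)).trans_lt
    h.unc)
  exact ⟨c, fun i => hc _ ⟨i, rfl⟩⟩

theorem exists_sup_set (h : RegK K) (S : Set K) (hS : #S < #K) (f : K → K) :
    ∃ c, ∀ x ∈ S, f x < c := by
  obtain ⟨c, hc⟩ := exists_sup h hS (fun x : S => f x)
  exact ⟨c, fun x hx => hc ⟨x, hx⟩⟩

theorem exists_sup_Iio (h : RegK K) (y : K) (f : K → K) : ∃ c, ∀ x < y, f x < c :=
  exists_sup_set h (Set.Iio y) (h.small y) f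

theorem exists_gt' (h : RegK K) (x : K) : ∃ y, x < y := by
  obtain ⟨c, hc⟩ := h.reg {x} (by
    rw [mk_singleton]
    exact one_lt_aleph0.trans h.unc)
  exact ⟨c, hc x rfl⟩

theorem small_Iic (h : RegK K) (y : K) : #(Set.Iic y) < #K := by
  obtain ⟨z, hz⟩ := exists_gt' h y
  exact (mk_le_mk_of_subset (fun x (hx : x ≤ y) => lt_of_le_of_lt hx hz)).trans_lt (h.small z)

theorem exists_sup_Iic (h : RegK K) (y : K) (f : K → K) : ∃ c, ∀ x ≤ y, f x < c :=
  exists_sup_set h (Set.Iic y) (small_Iic h y) f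

/-- Unbounded sets are the sets of full cardinality. -/
theorem ub_iff (h : RegK K) (S : Set K) : Ub S ↔ #S = #K := by
  constructor
  · intro hS
    refine le_antisymm (mk_set_le S) ?_
    by_contra hcon
    rw [not_le] at hcon
    obtain ⟨c, hc⟩ := h.reg S hcon
    obtain ⟨s, hs, hcs⟩ := hS c
    exact lt_asymm hcs (hc s hs)
  · intro hS c
    by_contra hcon
    push Not at hcon
    have := (mk_le_mk_of_subset (fun x hx => hcon x hx : S ⊆ Set.Iic c)).trans_lt (small_Iic h c)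
    rw [hS] at this
    exact lt_irrefl _ this

theorem not_ub_iff (h : RegK K) (S : Set K) : ¬ Ub S ↔ #S < #K := by
  rw [ub_iff h]
  exact ⟨fun h' => lt_of_le_of_ne (mk_set_le S) h', fun h' => h'.ne⟩

theorem Ub.mono {S T : Set K} (hS : Ub S) (hST : S ⊆ T) : Ub T := fun c => by
  obtain ⟨s, hs, hcs⟩ := hS c
  exact ⟨s, hST hs, hcs⟩

theorem Ub.tail {S : Set K} (hS : Ub S) (η : K) : Ub {x | x ∈ S ∧ η < x} := fun c => by
  obtain ⟨s, hs, hcs⟩ := hS (max c η)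
  exact ⟨s, ⟨hs, lt_of_le_of_lt (le_max_right _ _) hcs⟩, lt_of_le_of_lt (le_max_left _ _) hcs⟩

theorem Les.refl [Nonempty K] (f : K → K) : Les f f :=
  ⟨Classical.arbitrary K, fun _ _ => le_rfl⟩

theorem Les.trans {f g k : K → K} (h1 : Les f g) (h2 : Les g k) : Les f k := by
  obtain ⟨a, ha⟩ := h1
  obtain ⟨b, hb⟩ := h2
  exact ⟨max a b, fun x hx => (ha x (lt_of_le_of_lt (le_max_left _ _) hx)).trans
    (hb x (lt_of_le_of_lt (le_max_right _ _) hx))⟩

theorem Cl_anti {b b' : K → K} (h : ∀ x, b x ≤ b' x) : Cl b' ⊆ Cl b :=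
  fun _ hc y hy => (h y).trans_lt (hc y hy)

theorem Cl_max_left (b b' : K → K) : Cl (fun y => max (b y) (b' y)) ⊆ Cl b :=
  Cl_anti fun _ => le_max_left _ _

theorem Cl_max_right (b b' : K → K) : Cl (fun y => max (b y) (b' y)) ⊆ Cl b' :=
  Cl_anti fun _ => le_max_right _ _

variable [WellFoundedLT K]

theorem fl_mem (b : K → K) (x : K) : fl b x ∈ Cl b := (exists_fl b x).choose_spec.1

theorem fl_le (b : K → K) (x : K) : fl b x ≤ x := (exists_fl b x).choose_spec.2.1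

theorem le_fl {b : K → K} {x d : K} (hd : d ∈ Cl b) (hdx : d ≤ x) : d ≤ fl b x :=
  (exists_fl b x).choose_spec.2.2 d hd hdx

theorem fl_mono (b : K → K) {x y : K} (h : x ≤ y) : fl b x ≤ fl b y :=
  le_fl (fl_mem b x) ((fl_le b x).trans h)

theorem fl_anti {b b' : K → K} (h : ∀ x, b x ≤ b' x) (x : K) : fl b' x ≤ fl b x :=
  le_fl (Cl_anti h (fl_mem b' x)) (fl_le b' x)

/-- `fl b y = z` if `z ∈ Cl b` and there are no points of `Cl b` in `(z, y]`. -/
theorem fl_eq {b : K → K} {y z : K} (hz : z ∈ Cl b) (hzy : z ≤ y)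
    (hno : ∀ c ∈ Cl b, z < c → ¬ c ≤ y) : fl b y = z := by
  refine le_antisymm ?_ (le_fl hz hzy)
  by_contra hcon
  rw [not_le] at hcon
  exact hno _ (fl_mem b y) hcon (fl_le b y)

/-- Closure points of countable cofinality exist above every point. -/
theorem exists_cl_om (h : RegK K) (b : K → K) (η : K) :
    ∃ c, η < c ∧ c ∈ Cl b ∧ ∃ e : ℕ → K, (∀ n, e n < c) ∧ ∀ y < c, ∃ n, y < e n := by
  classical
  have hstep : ∀ x : K, ∃ z, x < z ∧ ∀ y ≤ x, b y < z := by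
    intro x
    obtain ⟨c, hc⟩ := exists_sup_Iic h x b
    obtain ⟨d, hd⟩ := exists_gt' h x
    exact ⟨max c d, hd.trans_le (le_max_right _ _), fun y hy => (hc y hy).trans_le (le_max_left _ _)⟩
  choose s hs1 hs2 using hstep
  let e : ℕ → K := fun n => s^[n + 1] η
  have he : ∀ n, e (n + 1) = s (e n) := fun n => Function.iterate_succ_apply' s (n + 1) η
  obtain ⟨c₀, hc₀⟩ := exists_sup_nat h e
  have hne : ({u : K | ∀ n, e n < u} : Set K).Nonempty := ⟨c₀, hc₀⟩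
  obtain ⟨c, hc, hmin⟩ := wellFounded_lt.has_min _ hne
  have hcof : ∀ y < c, ∃ n, y < e n := by
    intro y hy
    have h1 : ¬ (y ∈ ({u : K | ∀ n, e n < u} : Set K)) := fun h' => hmin y h' hy
    simp only [mem_setOf_eq, not_forall, not_lt] at h1
    obtain ⟨n, hn⟩ := h1
    refine ⟨n + 1, lt_of_le_of_lt hn ?_⟩
    rw [he]
    exact hs1 _
  refine ⟨c, ?_, ?_, e, hc, hcof⟩
  · exact lt_trans (hs1 η) (hc 0)
  · intro y hy
    obtain ⟨n, hn⟩ := hcof y hy
    refine lt_trans (hs2 (e n) y hn.le) ?_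
    rw [← he]
    exact hc _

theorem exists_cl (h : RegK K) (b : K → K) (η : K) : ∃ c, η < c ∧ c ∈ Cl b := by
  obtain ⟨c, h1, h2, _⟩ := exists_cl_om h b η
  exact ⟨c, h1, h2⟩

/-- `fl b` tends to infinity. -/
theorem fl_ub (h : RegK K) (b : K → K) (z : K) : ∃ η, ∀ x, η < x → z < fl b x := by
  obtain ⟨c, hc1, hc2⟩ := exists_cl h b z
  exact ⟨c, fun x hx => hc1.trans_le (le_fl hc2 hx.le)⟩

/-- The next element of `Cl b`. -/
theorem exists_nx (h : RegK K) (b : K → K) (x : K) :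
    ∃ c, x < c ∧ c ∈ Cl b ∧ ∀ d ∈ Cl b, x < d → c ≤ d := by
  obtain ⟨c₀, h1, h2⟩ := exists_cl h b x
  have hne : ({u : K | x < u ∧ u ∈ Cl b} : Set K).Nonempty := ⟨c₀, h1, h2⟩
  obtain ⟨c, hc, hmin⟩ := wellFounded_lt.has_min _ hne
  exact ⟨c, hc.1, hc.2, fun d hd hxd => not_lt.1 (hmin d ⟨hxd, hd⟩)⟩

omit [WellFoundedLT K] in
theorem Stat.mono {S T : Set K} (hS : Stat S) (hST : S ⊆ T) : Stat T := fun b η => by
  obtain ⟨c, hc, h1, h2⟩ := hS b η
  exact ⟨c, hST hc, h1, h2⟩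

omit [WellFoundedLT K] in
theorem Stat.tail {S : Set K} (hS : Stat S) (η : K) : Stat {x | x ∈ S ∧ η < x} := fun b η' => by
  obtain ⟨c, hc, h1, h2⟩ := hS b (max η η')
  exact ⟨c, ⟨hc, lt_of_le_of_lt (le_max_left _ _) h1⟩, lt_of_le_of_lt (le_max_right _ _) h1, h2⟩

omit [WellFoundedLT K] in
theorem Stat.inter_cl {S : Set K} (hS : Stat S) (b : K → K) : Stat {x | x ∈ S ∧ x ∈ Cl b} :=
  fun b' η => by
  obtain ⟨c, hc, h1, h2⟩ := hS (fun y => max (b y) (b' y)) η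
  exact ⟨c, ⟨hc, Cl_max_left b b' h2⟩, h1, Cl_max_right b b' h2⟩

omit [WellFoundedLT K] in
theorem Stat.ub {S : Set K} (hS : Stat S) : Ub S := fun η => by
  obtain ⟨c, hc, h1, _⟩ := hS id η
  exact ⟨c, hc, h1⟩

omit [WellFoundedLT K] in
theorem Stat.nonempty [Nonempty K] {S : Set K} (hS : Stat S) : S.Nonempty := by
  obtain ⟨c, hc, _⟩ := hS id (Classical.arbitrary K)
  exact ⟨c, hc⟩

omit [WellFoundedLT K] in
theorem not_stat {S : Set K} (hS : ¬ Stat S) : ∃ (b : K → K) (η : K), ∀ c ∈ S, η < c → c ∉ Cl b := by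
  unfold Stat at hS
  push Not at hS
  exact hS

/-- The points of countable cofinality form a stationary set. -/
theorem stat_om (h : RegK K) :
    Stat {c : K | ∃ e : ℕ → K, (∀ n, e n < c) ∧ ∀ y < c, ∃ n, y < e n} := by
  intro b η
  obtain ⟨c, h1, h2, h3⟩ := exists_cl_om h b η
  exact ⟨c, h3, h1, h2⟩

omit [WellFoundedLT K] in
theorem nonempty_of_regK (h : RegK K) : Nonempty K := by
  rw [← mk_ne_zero_iff]
  exact (aleph0_pos.trans h.unc).ne'

omit [WellFoundedLT K] in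
/-- Uniform ultrafilters contain the tails. -/
theorem ult_tail (p : Ultrafilter K) (hp : ∀ X ∈ p, Ub X) (η : K) : {x | η < x} ∈ p := by
  rw [← Ultrafilter.compl_notMem_iff]
  intro h
  obtain ⟨s, hs, h1⟩ := hp _ h η
  exact hs h1

end Pool.Agent.LibGP76
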