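import Pool.Agent.LibGP76.Basic

/-! [GP76 B1] Bounded families of functions. -/

set_option autoImplicit false

namespace Pool.Agent.LibGP76

open Cardinal Set

universe u

variable {K : Type u} [LinearOrder K] [WellFoundedLT K]

/-- Families of at most `#K` functions are bounded modulo bounded sets: diagonal supremum. -/
theorem bdd_seq (h : RegK K) (f : K → K → K) : ∃ k : K → K, ∀ i, Les (f i) k := by
  have hex : ∀ x : K, ∃ c, ∀ i ≤ x, f i x < c := fun x => exists_sup_Iic h x (fun i => f i x)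
  choose k hk using hex
  exact ⟨k, fun i => ⟨i, fun x hx => (hk x i hx.le).le⟩⟩

/-- Monotone majorants above the identity. -/
theorem exists_maj (h : RegK K) (k : K → K) :
    ∃ k' : K → K, (∀ x y, x ≤ y → k' x ≤ k' y) ∧ (∀ x, x < k' x) ∧ ∀ x, k x ≤ k' x := by
  have hex : ∀ x : K, ∃ c, (∀ y ≤ x, k y < c ∧ y < c) ∧
      ∀ c', (∀ y ≤ x, k y < c' ∧ y < c') → c ≤ c' := by
    intro x
    obtain ⟨c, hc⟩ := exists_sup_Iic h x k
    obtain ⟨d, hd⟩ := exists_gt' h x
    have hne : ({u : K | ∀ y ≤ x, k y < u ∧ y < u} : Set K).Nonempty :=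
      ⟨max c d, fun y hy => ⟨(hc y hy).trans_le (le_max_left _ _),
        (hy.trans_lt hd).trans_le (le_max_right _ _)⟩⟩
    obtain ⟨m, hm, hmin⟩ := wellFounded_lt.has_min _ hne
    exact ⟨m, hm, fun c' hc' => not_lt.1 (hmin c' hc')⟩
  choose k' hk1 hk2 using hex
  refine ⟨k', ?_, fun x => (hk1 x x le_rfl).2, fun x => (hk1 x x le_rfl).1.le⟩
  intro x y hxy
  exact hk2 x (k' y) (fun z hz => hk1 y z (hz.trans hxy))

/-- A type `I` of least cardinality that carries an unbounded family.  (The family of all functions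
is unbounded: `x ↦` something above `k x`.)  -/
theorem exists_min (h : RegK K) : ∃ (I : Type u) (f : I → K → K), (¬ ∃ k, ∀ i, Les (f i) k) ∧
    ∀ (J : Type u) (f' : J → K → K), #J < #I → ∃ k, ∀ j, Les (f' j) k := by
  have hne : ({c : Cardinal.{u} | ∃ (I : Type u) (f : I → K → K), #I = c ∧
      ¬ ∃ k, ∀ i, Les (f i) k} : Set Cardinal.{u}).Nonempty := by
    refine ⟨#(K → K), K → K, id, rfl, ?_⟩
    rintro ⟨k, hk⟩
    choose g hg using fun x : K => exists_gt' h (k x)
    obtain ⟨η, hη⟩ := hk g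
    obtain ⟨x, hx⟩ := exists_gt' h η
    exact absurd (hg x) (not_lt.2 (hη x hx))
  obtain ⟨c, ⟨I, f, hI, hf⟩, hmin⟩ := Cardinal.lt_wf.has_min _ hne
  refine ⟨I, f, hf, ?_⟩
  intro J f' hJ
  by_contra hcon
  exact hmin (#J) ⟨J, f', rfl, hcon⟩ (hI ▸ hJ)

end Pool.Agent.LibGP76
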