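import Pool.Agent.LibGP76.Basic

/-! [GP76 B2] The theorem of Cummings and Shelah: an unbounded family modulo bounded sets yields an
unbounded family modulo nonstationary sets. -/

set_option autoImplicit false

namespace Pool.Agent.LibGP76

open Cardinal Set

universe u

variable {K : Type u} [LinearOrder K] [WellFoundedLT K]

/-- The key claim: `b n` (`n ∈ ℕ`) increasing, `ψ n` bounds the gaps of `Cl (b n)` at the points of
`Cl (b (n+1))` above `η n`; then large points closed under all `ψ n` are in `Cl (b 0)`.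
Proof: choose `c₀` such that `e > c₀` implies `η n < fl (b m) e` for all `m, n` (`fl_ub`,
`exists_sup_nat`). Let `e > c₀` be closed under all `ψ n`, `y n = fl (b n) e`. This is
nonincreasing (`fl_anti`), so `y n = y (n+1) =: y` for some `n` (well-foundedness). If `y < e`,
then by `hgap` there is `d ∈ Cl (b n)`, `y < d ≤ ψ n y < e`, contradicting `le_fl`. -/
theorem cs_key (h : RegK K) (b ψ : ℕ → K → K) (η : ℕ → K)
    (hb : ∀ n x, b n x ≤ b (n + 1) x)
    (hgap : ∀ n, ∀ y ∈ Cl (b (n + 1)), η n < y → ∃ d ∈ Cl (b n), y < d ∧ d ≤ ψ n y) :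
    ∃ c₀, ∀ e, c₀ < e → (∀ n, e ∈ Cl (ψ n)) → e ∈ Cl (b 0) := by
  obtain ⟨η', hη'⟩ := exists_sup_nat h η
  have hex : ∀ m, ∃ c, ∀ x, c < x → η' < fl (b m) x := fun m => fl_ub h (b m) η'
  choose c hc using hex
  obtain ⟨c₀, hc₀⟩ := exists_sup_nat h c
  refine ⟨c₀, ?_⟩
  intro e he hcl
  have hb0 : ∀ n x, b 0 x ≤ b n x := by
    intro n x
    induction n with
    | zero => exact le_rfl
    | succ n ih => exact ih.trans (hb n x)
  obtain ⟨y, ⟨n, rfl⟩, hmin⟩ := wellFounded_lt.has_min (Set.range fun n => fl (b n) e) ⟨_, 0, rfl⟩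
  have h1 : fl (b (n + 1)) e ≤ fl (b n) e := fl_anti (hb n) e
  have h2 : fl (b n) e ≤ fl (b (n + 1)) e := not_lt.1 (hmin _ ⟨n + 1, rfl⟩)
  have h3 : fl (b n) e = fl (b (n + 1)) e := le_antisymm h2 h1
  rcases (fl_le (b n) e).lt_or_eq with hlt | heq
  · exfalso
    have h4 : fl (b n) e ∈ Cl (b (n + 1)) := by
      rw [h3]
      exact fl_mem _ _
    have h5 : η n < fl (b n) e := (hη' n).trans (hc n e ((hc₀ n).trans he))
    obtain ⟨d, hd, hd1, hd2⟩ := hgap n _ h4 h5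
    have h6 : d ≤ e := (hd2.trans_lt (hcl n _ hlt)).le
    exact absurd hd1 (not_lt.2 (le_fl hd h6))
  · exact Cl_anti (hb0 n) (heq ▸ fl_mem (b n) e)

/-- Proof: apply `H` to `φ = f` to get `ψ₀` and `b 0 i` with `f i x ≤ ψ₀ x` for large
`x ∈ Cl (b 0 i)` (`not_stat`); then recursively `b (n+1) i` and `ψ n` from `H` applied to
`φ i x = ` the next element of `Cl (b n i)` after `x` (`exists_nx`), where `b (n+1) i ≥ b n i`
(take maxima). By `cs_key`, for all `i`, all large points closed under all `ψ n` are in `Cl (b 0 i)`.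
Let `ψ∞ x` be an upper bound of all `ψ n x` and `k x = ψ₀ (next element of Cl ψ∞ after x)`. -/
theorem cs (h : RegK K) {I : Type u} (f : I → K → K) (hf : ∀ i x y, x ≤ y → f i x ≤ f i y)
    (H : ∀ φ : I → K → K, ∃ ψ : K → K, ∀ i, ¬ Stat {x | ψ x < φ i x}) :
    ∃ k, ∀ i, Les (f i) k := by
  classical
  have hstat : ∀ (φ : I → K → K), ∃ (ψ : K → K) (b : I → K → K) (η : I → K),
      ∀ i, ∀ c, η i < c → c ∈ Cl (b i) → φ i c ≤ ψ c := by
    intro φ
    obtain ⟨ψ, hψ⟩ := H φ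
    choose b η hbη using fun i => not_stat (hψ i)
    refine ⟨ψ, b, η, fun i c hc hcl => ?_⟩
    by_contra hcon
    exact hbη i c (not_le.1 hcon) hc hcl
  obtain ⟨ψ₀, b₀, η₀, h0⟩ := hstat f
  have hstep : ∀ B : I → K → K, ∃ (B' : I → K → K) (ψ : K → K) (η : I → K),
      (∀ i x, B i x ≤ B' i x) ∧
      ∀ i, ∀ y ∈ Cl (B' i), η i < y → ∃ d ∈ Cl (B i), y < d ∧ d ≤ ψ y := by
    intro B
    choose φ hφ1 hφ2 hφ3 using fun (i : I) (x : K) => exists_nx h (B i) x
    obtain ⟨ψ, b, η, hb⟩ := hstat φ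
    refine ⟨fun i x => max (B i x) (b i x), ψ, η, fun i x => le_max_left _ _, ?_⟩
    intro i y hy hηy
    exact ⟨φ i y, hφ2 i y, hφ1 i y, hb i y hηy (Cl_max_right (B i) (b i) hy)⟩
  choose st ψs ηs hst1 hst2 using hstep
  let Bs : ℕ → I → K → K := fun n => Nat.rec b₀ (fun _ B => st B) n
  have hBs : ∀ n, Bs (n + 1) = st (Bs n) := fun n => rfl
  have hkey : ∀ i, ∃ c₀, ∀ e, c₀ < e → (∀ n, e ∈ Cl (ψs (Bs n))) → e ∈ Cl (b₀ i) := by
    intro i
    refine cs_key h (fun n => Bs n i) (fun n => ψs (Bs n)) (fun n => ηs (Bs n) i) ?_ ?_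
    · intro n x
      exact hst1 (Bs n) i x
    · intro n y hy hηy
      exact hst2 (Bs n) i y hy hηy
  choose c₀ hc₀ using hkey
  choose ψi hψi using fun x : K => exists_sup_nat h (fun n => ψs (Bs n) x)
  choose nx hnx1 hnx2 hnx3 using fun x : K => exists_nx h ψi x
  refine ⟨fun x => ψ₀ (nx x), fun i => ⟨max (c₀ i) (η₀ i), fun x hx => ?_⟩⟩
  have h1 : c₀ i < nx x := ((le_max_left _ _).trans_lt hx).trans (hnx1 x)
  have h2 : η₀ i < nx x := ((le_max_right _ _).trans_lt hx).trans (hnx1 x)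
  have h3 : nx x ∈ Cl (b₀ i) :=
    hc₀ i (nx x) h1 (fun n => Cl_anti (fun y => (hψi y n).le) (hnx2 x))
  exact (hf i x (nx x) (hnx1 x).le).trans (h0 i (nx x) h2 h3)

end Pool.Agent.LibGP76
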