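import Mathlib

/-!
Combinatorics of a regular uncountable well-order `K`: definitions.

`K` stands for a regular uncountable cardinal `κ`, as a well-ordered set of type `κ`.
-/

set_option autoImplicit false

namespace Pool.Agent.LibGP76

open Cardinal Set

universe u

/-- `K` is a well-order of type a regular uncountable cardinal (together with `WellFoundedLT K`). -/
structure RegK (K : Type u) [LinearOrder K] : Prop where
  unc : ℵ₀ < #K
  small : ∀ c : K, #(Set.Iio c) < #K
  reg : ∀ S : Set K, #S < #K → ∃ c, ∀ s ∈ S, s < c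

variable {K : Type u} [LinearOrder K]

/-- Unbounded sets. -/
def Ub (S : Set K) : Prop := ∀ c, ∃ s ∈ S, c < s

/-- The closed unbounded set of the points closed under `b`. -/
def Cl (b : K → K) : Set K := {c | ∀ y < c, b y < c}

/-- Stationary sets. -/
def Stat (S : Set K) : Prop := ∀ (b : K → K) (η : K), ∃ c ∈ S, η < c ∧ c ∈ Cl b

/-- `f ≤* g`. -/
def Les (f g : K → K) : Prop := ∃ η, ∀ x, η < x → f x ≤ g x

/-- For every `x`, the set `Cl b` has a largest element below or equal to `x`. -/
theorem exists_fl [WellFoundedLT K] (b : K → K) (x : K) :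
    ∃ c, c ∈ Cl b ∧ c ≤ x ∧ ∀ d ∈ Cl b, d ≤ x → d ≤ c := by
  classical
  have hne : ({u : K | ∀ c ∈ Cl b, c ≤ x → c ≤ u} : Set K).Nonempty := ⟨x, fun c _ h => h⟩
  obtain ⟨u, hu, humin⟩ := wellFounded_lt.has_min _ hne
  refine ⟨u, ?_, ?_, hu⟩
  · intro y hy
    have h1 : ¬ (y ∈ ({u : K | ∀ c ∈ Cl b, c ≤ x → c ≤ u} : Set K)) := fun h => humin y h hy
    simp only [mem_setOf_eq, not_forall, not_le] at h1
    obtain ⟨c, hc, hcx, hyc⟩ := h1
    exact (hc y hyc).trans_le (hu c hc hcx)
  · by_contra hcon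
    rw [not_le] at hcon
    exact humin x (fun c _ h => h) hcon

/-- The largest element of `Cl b` that is at most `x`. -/
noncomputable def fl [WellFoundedLT K] (b : K → K) (x : K) : K := (exists_fl b x).choose

/-- Abstract positivity notions (positive sets of a normal ideal). -/
structure Posit (P : Set K → Prop) : Prop where
  ne : ∀ S, P S → S.Nonempty
  mono : ∀ S T, S ⊆ T → P S → P T
  tail : ∀ (S : Set K) (η : K), P S → P {x | x ∈ S ∧ η < x}
  press : ∀ (S : Set K) (f : K → K), P S → (∀ x ∈ S, f x < x) → ∃ ζ, P {x | x ∈ S ∧ f x = ζ}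

/-- Scales: a `≤*`-increasing sequence of monotone functions above the identity along a well-order
`L` in which every set of at most `#K` elements is bounded. -/
structure Sc {L : Type u} [LinearOrder L] (g : L → K → K) : Prop where
  mono : ∀ ν x y, x ≤ y → g ν x ≤ g ν y
  gt : ∀ ν x, x < g ν x
  inc : ∀ μ ν, μ < ν → Les (g μ) (g ν)
  bd : ∀ D : K → L, ∃ ν, ∀ j, D j < ν

/-- Positive sets for the scale `g`. -/
def Pos {L : Type u} (g : L → K → K) (S : Set K) : Prop :=
  ∀ ψ : K → K, ∃ δ, Stat {x | x ∈ S ∧ ψ x < g δ x}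

/-- The conclusion for one ultrafilter `p`: classes `Cls C` of unbounded sets, one for each subset
`C` of `K`, such that classes of almost disjoint sets are orthogonal, and for unbounded `C` each
member of `p` contains a member of `Cls C`. -/
def GoodClass (p : Ultrafilter K) : Prop :=
  ∃ Cls : Set K → Set K → Prop,
    (∀ C B, Cls C B → Ub B) ∧
    (∀ C C', ¬ Ub (C ∩ C') → ∀ B B', Cls C B → Cls C' B' → ¬ Ub (B ∩ B')) ∧
    ∀ X ∈ p, ∀ C, Ub C → ∃ B, B ⊆ X ∧ Cls C B

/-- `x` is singular: its cofinality is smaller than `x`. -/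
def Sing (x : K) : Prop :=
  ∃ y < x, ∃ e : K → K, (∀ i < y, e i < x) ∧ ∀ z < x, ∃ i < y, z < e i

end Pool.Agent.LibGP76
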