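import Pool.Agent.LibGP76.Basic

/-! [GP76 C1] The dichotomy for uniform ultrafilters on `K`. -/

set_option autoImplicit false

namespace Pool.Agent.LibGP76

open Cardinal Set

universe u

variable {K : Type u} [LinearOrder K] [WellFoundedLT K]

/-- An infinite subset of a well-order contains a strictly increasing sequence. -/
theorem exists_incr {S : Set K} (hS : S.Infinite) : ∃ j : ℕ → K, (∀ n, j n ∈ S) ∧ StrictMono j := by
  classical
  haveI := hS.to_subtype
  obtain ⟨f, hf⟩ := Infinite.natEmbedding S
  obtain ⟨g, hg⟩ := exists_increasing_or_nonincreasing_subseq (α := K) (· < ·) (fun n => (f n : K))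
  rcases hg with hg | hg
  · exact ⟨fun n => f (g n), fun n => (f (g n)).2, fun m n hmn => hg m n hmn⟩
  · exfalso
    have h1 : StrictAnti (fun n => ((f (g n) : S) : K)) := by
      intro m n hmn
      refine lt_of_le_of_ne (not_lt.1 (hg m n hmn)) ?_
      intro heq
      have h2 : g n = g m := hf (Subtype.ext heq)
      exact hmn.ne' (g.injective h2)
    exact not_strictAnti_of_wellFoundedLT _ h1

/-- Either some `fl b` maps `p` to an ultrafilter that contains all closed unbounded sets, or `p` is
`(ω, #K)`-regular. -/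
theorem dichotomy (h : RegK K) (p : Ultrafilter K) (hp : ∀ X ∈ p, Ub X) :
    (∃ b : K → K, ∀ b' : K → K, {x | fl b x ∈ Cl b'} ∈ p) ∨
    (∃ s : K → Finset K, (∀ x, ∀ j ∈ s x, j < x) ∧ ∀ j, {x | j ∈ s x} ∈ p) := by
  classical
  rw [or_iff_not_imp_left]
  intro hcon
  push Not at hcon
  -- for every `b` there is a larger `b'` with strictly smaller `fl` on a member of `p`
  have hstep : ∀ b : K → K, ∃ b' : K → K, (∀ x, b x ≤ b' x) ∧ {x | fl b' x < fl b x} ∈ p := by
    intro b
    obtain ⟨b₁, h1⟩ := hcon b
    refine ⟨fun y => max (b y) (b₁ y), fun x => le_max_left _ _, ?_⟩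
    rw [← Ultrafilter.compl_mem_iff_notMem] at h1
    refine Filter.mem_of_superset h1 ?_
    intro x hx
    refine lt_of_le_of_ne (fl_anti (fun _ => le_max_left _ _) x) ?_
    intro heq
    apply hx
    show fl b x ∈ Cl b₁
    rw [← heq]
    exact Cl_max_right b b₁ (fl_mem _ x)
  choose nb hnb1 hnb2 using hstep
  -- pointwise upper bounds
  have hsup : ∀ (j : K) (f : (i : K) → i < j → (K → K)), ∃ B : K → K, ∀ i (hi : i < j) x,
      f i hi x ≤ B x := by
    intro j f
    choose B hB using fun x : K => exists_sup h (h.small j) (fun i : Set.Iio j => f i.1 i.2 x)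
    exact ⟨B, fun i hi x => (hB x ⟨i, hi⟩).le⟩
  choose sp hsp using hsup
  let B : K → K → K := wellFounded_lt.fix (fun j rec => sp j (fun i hi => nb (rec i hi)))
  have hB : ∀ j, B j = sp j (fun i _ => nb (B i)) := fun j => wellFounded_lt.fix_eq _ j
  have hBle : ∀ i j, i < j → ∀ x, nb (B i) x ≤ B j x := by
    intro i j hij x
    rw [hB j]
    exact hsp j (fun i _ => nb (B i)) i hij x
  have hfin : ∀ x, {j : K | fl (nb (B j)) x < fl (B j) x}.Finite := by
    intro x
    by_contra hinf
    obtain ⟨j, hj1, hj2⟩ := exists_incr (S := {j : K | fl (nb (B j)) x < fl (B j) x}) hinf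
    have h1 : StrictAnti (fun n => fl (B (j n)) x) := by
      intro m n hmn
      exact (fl_anti (hBle _ _ (hj2 hmn)) x).trans_lt (hj1 m)
    exact not_strictAnti_of_wellFoundedLT _ h1
  refine ⟨fun x => (hfin x).toFinset.filter (fun j => j < x), ?_, ?_⟩
  · intro x j hj
    exact (Finset.mem_filter.1 hj).2
  · intro j
    refine Filter.mem_of_superset (Filter.inter_mem (hnb2 (B j)) (ult_tail p hp j)) ?_
    rintro x ⟨h1, h2⟩
    simp only [mem_setOf_eq, Finset.mem_filter, Set.Finite.mem_toFinset]
    exact ⟨h1, h2⟩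

end Pool.Agent.LibGP76
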