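import Pool.Agent.LibGP76.Fodor

/-! [GP76 A2] Splitting positive sets with ladders into `#K` many disjoint positive sets. -/

set_option autoImplicit false

namespace Pool.Agent.LibGP76

open Cardinal Set

universe u

variable {K : Type u} [LinearOrder K] [WellFoundedLT K]

/-- Fewer than `#K` pieces: one of them is positive. Proof: embed `ι` into `K` by an injection `e`
(its range is bounded by some `η`), apply `tail` above `η` and `press` to `e (c x)`; positive sets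
are nonempty, so the value is of the form `e i`. -/
theorem Posit.pieces (h : RegK K) {P : Set K → Prop} (hP : Posit P) {S : Set K} (hS : P S)
    {ι : Type u} (hι : #ι < #K) (c : K → ι) : ∃ i, P {x | x ∈ S ∧ c x = i} := by
  obtain ⟨⟨e, he⟩⟩ := (Cardinal.le_def ι K).1 hι.le
  obtain ⟨η, hη⟩ := exists_sup h hι e
  have h1 := hP.tail S η hS
  obtain ⟨ζ, hζ⟩ := hP.press _ (fun x => e (c x)) h1 (fun x hx => (hη _).trans hx.2)
  obtain ⟨x₀, hx₀⟩ := hP.ne _ hζ
  refine ⟨c x₀, hP.mono _ _ ?_ hζ⟩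
  rintro x ⟨⟨hxS, _⟩, hx⟩
  exact ⟨hxS, he (hx.trans hx₀.2.symm)⟩

/-- Proof: by `pieces` (two pieces) either this holds or `P (S \ Cl b)`; in the second case
`press` the function `x ↦ y` with `y < x ≤ b y`: it is constant `ζ` on a positive set, which by
`tail` and `ne` has elements above `b ζ`: contradiction. -/
theorem Posit.inter_cl (h : RegK K) {P : Set K → Prop} (hP : Posit P) {S : Set K} (hS : P S)
    (b : K → K) : P {x | x ∈ S ∧ x ∈ Cl b} := by
  classical
  obtain ⟨⟨i⟩, hi⟩ := hP.pieces h hS (ι := ULift.{u} Bool) (by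
    refine lt_trans ?_ h.unc
    rw [Cardinal.lt_aleph0_iff_finite]
    infer_instance) (fun x => ⟨decide (x ∈ Cl b)⟩)
  cases i with
  | true =>
    refine hP.mono _ _ ?_ hi
    rintro x ⟨hx, hxi⟩
    refine ⟨hx, ?_⟩
    have : decide (x ∈ Cl b) = true := congrArg ULift.down hxi
    exact of_decide_eq_true this
  | false =>
    exfalso
    have h1 : ∀ x, x ∉ Cl b → ∃ y < x, x ≤ b y := by
      intro x hx
      simp only [Cl, mem_setOf_eq, not_forall, not_lt] at hx
      obtain ⟨y, hy, hxy⟩ := hx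
      exact ⟨y, hy, hxy⟩
    have h2 : ∀ x, ∃ y, x ∉ Cl b → y < x ∧ x ≤ b y := by
      intro x
      by_cases hx : x ∉ Cl b
      · obtain ⟨y, hy, hxy⟩ := h1 x hx
        exact ⟨y, fun _ => ⟨hy, hxy⟩⟩
      · exact ⟨x, fun h => absurd h hx⟩
    choose f hf using h2
    have hn : ∀ x, (x ∈ S ∧ (⟨decide (x ∈ Cl b)⟩ : ULift.{u} Bool) = ⟨false⟩) → x ∉ Cl b := by
      rintro x ⟨_, hx⟩
      have : decide (x ∈ Cl b) = false := congrArg ULift.down hx
      exact of_decide_eq_false this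
    obtain ⟨ζ, hζ⟩ := hP.press _ f hi (fun x hx => (hf x (hn x hx)).1)
    have h3 := hP.tail _ (b ζ) hζ
    obtain ⟨x, ⟨hx, hx2⟩, hx3⟩ := hP.ne _ h3
    have h4 := (hf x (hn x hx)).2
    rw [hx2] at h4
    exact absurd hx3 (not_lt.2 h4)

/-- Ladders `e · x` (`x ∈ S`) of length `< #K`.  Proof: there is `i` such that for all `η` the set
`{x ∈ S | η < e i x}` is positive (otherwise choose `η i` for every `i`, take an upper bound `η` of
them, and split `{x ∈ S | η < x}` into the pieces according to some `i` with `η < e i x`).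
Then for all `η` there is `ζ > η` with `{x ∈ S | e i x = ζ}` positive (`press`). So the set `Z` of
these `ζ` is unbounded, and there is a function `t : K → K` which maps `Z` onto `K` (`ub_iff`:
`#Z = #K`); put `col x = t (e i x)`. -/
theorem ladder_split (h : RegK K) {P : Set K → Prop} (hP : Posit P) {S : Set K} (hS : P S)
    {ι : Type u} (hι : #ι < #K) (e : ι → K → K) (he : ∀ x ∈ S, ∀ i, e i x < x)
    (hc : ∀ x ∈ S, ∀ y < x, ∃ i, y < e i x) : ∃ col : K → K, ∀ a, P {x | col x = a} := by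
  classical
  have h1 : ∃ i, ∀ η, P {x | x ∈ S ∧ η < e i x} := by
    by_contra hcon
    push Not at hcon
    choose η hη using hcon
    obtain ⟨η', hη'⟩ := exists_sup h hι η
    have hS1 := hP.tail S η' hS
    have hex : ∀ x, x ∈ S ∧ η' < x → ∃ i, η' < e i x := fun x hx => hc x hx.1 η' hx.2
    obtain ⟨x₀, hx₀⟩ := hP.ne _ hS1
    obtain ⟨i₀, _⟩ := hex x₀ hx₀
    have hex' : ∀ x, ∃ i, x ∈ S ∧ η' < x → η' < e i x := by
      intro x
      by_cases hx : x ∈ S ∧ η' < x
      · obtain ⟨i, hi⟩ := hex x hx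
        exact ⟨i, fun _ => hi⟩
      · exact ⟨i₀, fun h => absurd h hx⟩
    choose c hc' using hex'
    obtain ⟨i, hi⟩ := hP.pieces h hS1 hι c
    apply hη i
    refine hP.mono _ _ ?_ hi
    rintro x ⟨hx, rfl⟩
    exact ⟨hx.1, (hη' _).trans (hc' x hx)⟩
  obtain ⟨i, hi⟩ := h1
  set Z : Set K := {ζ | P {x | x ∈ S ∧ e i x = ζ}} with hZ
  have hZub : Ub Z := by
    intro η
    obtain ⟨ζ, hζ⟩ := hP.press _ (e i) (hi η) (fun x hx => he x hx.1 i)
    obtain ⟨x, hx, hx2⟩ := hP.ne _ hζ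
    refine ⟨ζ, hP.mono _ _ ?_ hζ, ?_⟩
    · rintro y ⟨hy, hy2⟩
      exact ⟨hy.1, hy2⟩
    · rw [← hx2]
      exact hx.2
  rw [ub_iff h] at hZub
  obtain ⟨φ⟩ := Cardinal.eq.1 hZub
  let t : K → K := fun z => if hz : z ∈ Z then φ ⟨z, hz⟩ else z
  refine ⟨fun x => t (e i x), fun a => ?_⟩
  have hz : P {x | x ∈ S ∧ e i x = (φ.symm a : K)} := (φ.symm a).2
  refine hP.mono _ _ ?_ hz
  rintro x ⟨_, hx⟩
  show t (e i x) = a
  rw [hx]
  have : t (φ.symm a : K) = φ ⟨(φ.symm a : K), (φ.symm a).2⟩ := dif_pos (φ.symm a).2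
  rw [this, Subtype.coe_eta, Equiv.apply_symm_apply]

/-- Solovay's theorem (for a set of stationary sets). From `stat_om`, `stat_posit` and
`ladder_split` with `ι = ULift ℕ`. -/
theorem col_stat (h : RegK K) : ∃ col : K → K, ∀ a, Stat {x | col x = a} := by
  classical
  have hex : ∀ x : K, ∃ e : ℕ → K, (∃ e : ℕ → K, (∀ n, e n < x) ∧ ∀ y < x, ∃ n, y < e n) →
      (∀ n, e n < x) ∧ ∀ y < x, ∃ n, y < e n := by
    intro x
    by_cases hx : ∃ e : ℕ → K, (∀ n, e n < x) ∧ ∀ y < x, ∃ n, y < e n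
    · obtain ⟨e, he⟩ := hx
      exact ⟨e, fun _ => he⟩
    · exact ⟨fun _ => x, fun h => absurd h hx⟩
  choose e he using hex
  refine ladder_split h (stat_posit h) (stat_om h) (ι := ULift.{u} ℕ) ?_
    (fun n x => e x n.down) ?_ ?_
  · have : #(ULift.{u} ℕ) = ℵ₀ := by simp
    rw [this]
    exact h.unc
  · intro x hx n
    exact (he x hx).1 n.down
  · intro x hx y hy
    obtain ⟨n, hn⟩ := (he x hx).2 y hy
    exact ⟨⟨n⟩, hn⟩

/-- If all points of a closed unbounded set are singular. Proof: `inter_cl`, `tail`; `press` the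
length `y` of the cofinal map of `x` (`Sing x`), then `ladder_split` with `ι = Set.Iio y`. -/
theorem col_sing (h : RegK K) {P : Set K → Prop} (hP : Posit P) (hu : P univ) (b : K → K) (η : K)
    (hb : ∀ x ∈ Cl b, η < x → Sing x) : ∃ col : K → K, ∀ a, P {x | col x = a} := by
  classical
  have h1 := hP.tail _ η (hP.inter_cl h hu b)
  have hex : ∀ x : K, ∃ (y : K) (e : K → K), (x ∈ Cl b ∧ η < x) →
      y < x ∧ (∀ i < y, e i < x) ∧ ∀ z < x, ∃ i < y, z < e i := by
    intro x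
    by_cases hx : x ∈ Cl b ∧ η < x
    · obtain ⟨y, hy, e, he⟩ := hb x hx.1 hx.2
      exact ⟨y, e, fun _ => ⟨hy, he⟩⟩
    · exact ⟨x, id, fun h => absurd h hx⟩
  choose y e he using hex
  have hS : ∀ x : K, x ∈ {x : K | x ∈ {x : K | x ∈ (Set.univ : Set K) ∧ x ∈ Cl b} ∧ η < x} → x ∈ Cl b ∧ η < x := by
    rintro x ⟨⟨_, hx⟩, hx2⟩
    exact ⟨hx, hx2⟩
  obtain ⟨ζ, hζ⟩ := hP.press _ y h1 (fun x hx => (he x (hS x hx)).1)
  refine ladder_split h hP hζ (ι := Set.Iio ζ) (h.small ζ) (fun i x => e x i) ?_ ?_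
  · rintro x ⟨hx, hx2⟩ ⟨i, hi⟩
    refine (he x (hS x hx)).2.1 i ?_
    rw [hx2]
    exact hi
  · rintro x ⟨hx, hx2⟩ z hz
    obtain ⟨i, hi, hi2⟩ := (he x (hS x hx)).2.2 z hz
    rw [hx2] at hi
    exact ⟨⟨i, hi⟩, hi2⟩

end Pool.Agent.LibGP76
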