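import Pool.Agent.LibGP76.PosG

/-! [GP76 C2] The normal case of the dichotomy. -/

set_option autoImplicit false

namespace Pool.Agent.LibGP76

open Cardinal Set

universe u

variable {K : Type u} [LinearOrder K] [WellFoundedLT K] {L : Type u} [LinearOrder L]

/-- The classes in the normal case. -/
def ClsN (b : K → K) (g : L → K → K) (col : K → K) (C B : Set K) : Prop :=
  Ub B ∧ ∃ δ : L,
    (∃ η, ∀ x ∈ B, η < x → fl b x ∉ Cl (g δ)) ∧
    (∀ β < δ, ∃ η, ∀ x ∈ B, η < x → fl b x ∈ Cl (g β)) ∧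
    (∃ η, ∀ x ∈ B, η < x → col (fl (g δ) (fl b x)) ∈ C) ∧
    (∀ ζ, ∃ η, ∀ x ∈ B, η < x → ζ < col (fl (g δ) (fl b x)))

/-- Orthogonality. -/
theorem orth_n (b : K → K) (g : L → K → K) (col : K → K) (C C' : Set K) (hC : ¬ Ub (C ∩ C'))
    (B B' : Set K) (hB : ClsN b g col C B) (hB' : ClsN b g col C' B') : ¬ Ub (B ∩ B') := by
  intro hBB
  obtain ⟨hu, δ, ⟨a1, h1⟩, h2, ⟨a3, h3⟩, h4⟩ := hB
  obtain ⟨hu', δ', ⟨a1', h1'⟩, h2', ⟨a3', h3'⟩, h4'⟩ := hB'
  rcases lt_trichotomy δ δ' with hd | hd | hd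
  · obtain ⟨a2, h2⟩ := h2' δ hd
    obtain ⟨x, hx, hxl⟩ := hBB (max a1 a2)
    exact h1 x hx.1 (lt_of_le_of_lt (le_max_left _ _) hxl)
      (h2 x hx.2 (lt_of_le_of_lt (le_max_right _ _) hxl))
  · subst hd
    unfold Ub at hC
    push Not at hC
    obtain ⟨ζ, hζ⟩ := hC
    obtain ⟨a4, h4⟩ := h4 ζ
    obtain ⟨x, hx, hxl⟩ := hBB (max (max a3 a3') a4)
    have k1 := h3 x hx.1 (lt_of_le_of_lt ((le_max_left _ _).trans (le_max_left _ _)) hxl)
    have k2 := h3' x hx.2 (lt_of_le_of_lt ((le_max_right _ _).trans (le_max_left _ _)) hxl)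
    have k3 := h4 x hx.1 (lt_of_le_of_lt (le_max_right _ _) hxl)
    exact absurd k3 (not_lt.2 (hζ _ ⟨k1, k2⟩))
  · obtain ⟨a2, h2⟩ := h2 δ' hd
    obtain ⟨x, hx, hxl⟩ := hBB (max a1' a2)
    exact h1' x hx.2 (lt_of_le_of_lt (le_max_left _ _) hxl)
      (h2 x hx.1 (lt_of_le_of_lt (le_max_right _ _) hxl))

variable [WellFoundedLT L]

/-- Density. -/
theorem dens_n (h : RegK K) (p : Ultrafilter K) (hp : ∀ X ∈ p, Ub X) (b : K → K)
    (hb : ∀ b' : K → K, {x | fl b x ∈ Cl b'} ∈ p) {g : L → K → K} (hg : Sc g) (col : K → K)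
    (hcol : ∀ a, Pos g {x | col x = a}) (X : Set K) (hX : X ∈ p) (C : Set K) (hC : Ub C) :
    ∃ B, B ⊆ X ∧ ClsN b g col C B := by
  classical
  haveI := nonempty_of_regK h
  -- the points
  have hw : ∀ (β : L) (z : K), ∃ w, w ∈ X ∧ z < fl b w ∧ fl b w ∈ Cl (g β) := by
    intro β z
    obtain ⟨η, hη⟩ := fl_ub h b z
    obtain ⟨w, hw⟩ := p.nonempty_of_mem (Filter.inter_mem hX (Filter.inter_mem
      (ult_tail p hp η) (hb (g β))))
    exact ⟨w, hw.1, hη w hw.2.1, hw.2.2⟩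
  choose w hw1 hw2 hw3 using hw
  -- the levels
  have hD : ∀ β : L, ∃ D : L, ∀ δ, D ≤ δ → ∀ a, Stat {z | col z = a ∧ fl b (w β z) < g δ z} := by
    intro β
    choose D₀ hD₀ using fun a : K => (hcol a).esc hg (fun z => fl b (w β z))
    obtain ⟨D, hD⟩ := hg.bd D₀
    exact ⟨D, fun δ hδ a => hD₀ a δ ((hD a).le.trans hδ)⟩
  choose D hD using hD
  obtain ⟨ν₀, -⟩ := hcol (Classical.arbitrary K) id
  obtain ⟨β, δ, hβ, hβ1, hβδ, hDδ, hδ⟩ := levels h hg D ν₀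
  -- thresholds
  have hth : ∀ i j, ∃ η, i < j → ∀ c, η < c → c ∈ Cl (g (β j)) → c ∈ Cl (g (β i)) := by
    intro i j
    by_cases hij : i < j
    · obtain ⟨η, hη⟩ := cl_almost hg (hβ i j hij)
      exact ⟨η, fun _ => hη⟩
    · exact ⟨Classical.arbitrary K, fun h => absurd h hij⟩
  choose θ hθ using hth
  choose τ hτ using fun j => exists_sup_Iio h j (fun i => θ i j)
  -- colours
  choose a ha1 ha2 using fun j => hC j
  -- the recursion
  obtain ⟨z, hzΦ, hzj, hzM⟩ := exists_seq h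
    (fun j z => ((col z = a j ∧ fl b (w (β j) z) < g δ z) ∧ z ∈ Cl (g δ)) ∧ τ j < z) id
    (fun i z => w (β i) z) (by
      intro j y
      obtain ⟨z, hz1, hz2⟩ := ((hD (β j) δ (hDδ j) (a j)).inter_cl (g δ)).ub (max y (τ j))
      exact ⟨z, lt_of_le_of_lt (le_max_left _ _) hz2, hz1, lt_of_le_of_lt (le_max_right _ _) hz2⟩)
  simp only [id] at hzj hzM
  let x : K → K := fun j => w (β j) (z j)
  have hzf : ∀ j, z j < fl b (x j) := fun j => hw2 _ _
  have hfx : ∀ j, fl b (x j) ≤ x j := fun j => fl_le _ _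
  have hzx : ∀ j, z j < x j := fun j => (hzf j).trans_le (hfx j)
  have hxmono : ∀ i j, i < j → x i < x j := fun i j hij => (hzM i j hij).trans (hzx j)
  have hxlt : ∀ i j, x i < x j → i < j := by
    intro i j hij
    by_contra hcon
    rcases lt_or_eq_of_le (not_lt.1 hcon) with h1 | h1
    · exact lt_asymm hij (hxmono _ _ h1)
    · rw [h1] at hij
      exact lt_irrefl _ hij
  have hidx : ∀ (P : K → Prop) (j₀ : K), (∀ j, j₀ < j → P (x j)) →
      ∃ η, ∀ y ∈ range x, η < y → P y := by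
    intro P j₀ hP
    refine ⟨x j₀, ?_⟩
    rintro _ ⟨j, rfl⟩ hj
    exact hP j (hxlt _ _ hj)
  have hzcl : ∀ j, z j ∈ Cl (g δ) := fun j => (hzΦ j).1.2
  have hgap : ∀ j, fl b (x j) < g δ (z j) := fun j => (hzΦ j).1.1.2
  have hzτ : ∀ j, τ j < z j := fun j => (hzΦ j).2
  have hno : ∀ j, ∀ c ∈ Cl (g δ), z j < c → ¬ c ≤ fl b (x j) := by
    intro j c hc hzc hcx
    exact lt_irrefl _ ((hc _ hzc).trans_le (hcx.trans (hgap j).le))
  have hflz : ∀ j, fl (g δ) (fl b (x j)) = z j := fun j => fl_eq (hzcl j) (hzf j).le (hno j)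
  refine ⟨range x, ?_, ?_, δ, ?_, ?_, ?_, ?_⟩
  · rintro _ ⟨j, rfl⟩
    exact hw1 _ _
  · intro η
    exact ⟨x η, ⟨η, rfl⟩, (hzj η).trans (hzx η)⟩
  · refine hidx (fun y => fl b y ∉ Cl (g δ)) (Classical.arbitrary K) ?_
    intro j _ hj
    exact hno j _ hj (hzf j) le_rfl
  · intro ν hν
    obtain ⟨i, hi⟩ := hδ ν hν
    obtain ⟨η, hη⟩ := cl_almost hg hi
    refine hidx (fun y => fl b y ∈ Cl (g ν)) (max i η) ?_
    intro j hj
    have hij : i < j := lt_of_le_of_lt (le_max_left _ _) hj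
    have hηj : η < j := lt_of_le_of_lt (le_max_right _ _) hj
    refine hη _ ((hηj.trans (hzj j)).trans (hzf j)) ?_
    exact hθ i j hij _ (((hτ j i hij).trans (hzτ j)).trans (hzf j)) (hw3 _ _)
  · refine hidx (fun y => col (fl (g δ) (fl b y)) ∈ C) (Classical.arbitrary K) ?_
    intro j _
    rw [hflz, (hzΦ j).1.1.1]
    exact ha1 j
  · intro ζ
    refine hidx (fun y => ζ < col (fl (g δ) (fl b y))) ζ ?_
    intro j hj
    rw [hflz, (hzΦ j).1.1.1]
    exact hj.trans (ha2 j)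

theorem n_case (h : RegK K) (p : Ultrafilter K) (hp : ∀ X ∈ p, Ub X) (b : K → K)
    (hb : ∀ b' : K → K, {x | fl b x ∈ Cl b'} ∈ p) {g : L → K → K} (hg : Sc g) (col : K → K)
    (hcol : ∀ a, Pos g {x | col x = a}) : GoodClass p :=
  ⟨ClsN b g col, fun _ _ hB => hB.1, orth_n b g col,
    fun X hX C hC => dens_n h p hp b hb hg col hcol X hX C hC⟩

end Pool.Agent.LibGP76
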