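import Pool.Agent.LibGP76.Bdd
import Pool.Agent.LibGP76.CS

/-! [GP76 B3] Existence of a scale that is unbounded modulo nonstationary sets. -/

set_option autoImplicit false

namespace Pool.Agent.LibGP76

open Cardinal Set

universe u

variable {K : Type u} [LinearOrder K] [WellFoundedLT K]

/-- Proof: `I`, `f` from `exists_min`; by `exists_maj` we may assume the `f i` monotone. By `cs`
(contrapositive) there is `φ : I → K → K` such that for every `ψ` there is `i` with
`Stat {x | ψ x < φ i x}`.  Let `L = (#I).ord.ToType` (well-order in which all initial segments have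
cardinality `< #I`), with a surjection (bijection) `L ≃ I`, `φ' : L → K → K`.
Define `g ν` by well-founded recursion: a function as in `exists_maj` above a bound `k` of the family
of the `φ' ν` and the `g μ`, `μ < ν` (fewer than `#I` functions as `I` is infinite). Then `mono`,
`gt`, `inc`; `Pos g univ` since `φ' ν ≤* g ν` (`Stat.tail`).  `bd`: if some `D : K → L` has no
strict upper bound, a bound `k` of the `g (D j)` (`bdd_seq`) bounds all `g ν`, hence all `φ' ν`,
contradicting the choice of `φ` with `ψ = k`. -/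
theorem exists_scale (h : RegK K) : ∃ (L : Type u) (_ : LinearOrder L) (_ : WellFoundedLT L)
    (g : L → K → K), Sc g ∧ Pos g univ := by
  classical
  obtain ⟨I, f₀, hf₀, hImin⟩ := exists_min h
  choose f hf1 hf2 hf3 using fun i : I => exists_maj h (f₀ i)
  have hf : ¬ ∃ k, ∀ i, Les (f i) k := by
    rintro ⟨k, hk⟩
    apply hf₀
    refine ⟨k, fun i => ?_⟩
    obtain ⟨η, hη⟩ := hk i
    exact ⟨η, fun x hx => (hf3 i x).trans (hη x hx)⟩
  -- the cardinality of `I`
  have hKI : #K < #I := by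
    by_contra hcon
    rw [not_lt] at hcon
    obtain ⟨⟨e, he⟩⟩ := (Cardinal.le_def I K).1 hcon
    have hex : ∀ y : K, ∃ F : K → K, ∀ i, e i = y → F = f i := by
      intro y
      by_cases hy : ∃ i, e i = y
      · obtain ⟨i, hi⟩ := hy
        refine ⟨f i, fun j hj => ?_⟩
        rw [he (hi.trans hj.symm)]
      · exact ⟨id, fun i hi => absurd ⟨i, hi⟩ hy⟩
    choose F hF using hex
    obtain ⟨k, hk⟩ := bdd_seq h F
    exact hf ⟨k, fun i => by
      rw [← hF (e i) i rfl]
      exact hk (e i)⟩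
  have hI0 : ℵ₀ ≤ #I := (h.unc.trans hKI).le
  -- Cummings-Shelah
  have hφ : ∃ φ : I → K → K, ∀ ψ : K → K, ∃ i, Stat {x | ψ x < φ i x} := by
    by_contra hcon
    push Not at hcon
    exact hf (cs h f (fun i x y hxy => hf1 i x y hxy) hcon)
  obtain ⟨φ, hφ⟩ := hφ
  obtain ⟨E⟩ : Nonempty ((#I).ord.ToType ≃ I) := by
    rw [← Cardinal.eq]
    exact mk_ord_toType _
  have hseg : ∀ ν : (#I).ord.ToType, #(Set.Iio ν) < #I := fun ν => by
    have := Cardinal.mk_Iio_toType_ord_lt ν
    exact this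
  have hstep : ∀ (ν : (#I).ord.ToType) (G : ∀ μ, μ < ν → K → K), ∃ m : K → K,
      (∀ x y, x ≤ y → m x ≤ m y) ∧ (∀ x, x < m x) ∧ Les (φ (E ν)) m ∧
      ∀ μ (hμ : μ < ν), Les (G μ hμ) m := by
    intro ν G
    have hJ : #(Option (Set.Iio ν)) < #I := by
      rw [mk_option]
      exact add_lt_of_lt hI0 (hseg ν) (one_lt_aleph0.trans_le hI0)
    obtain ⟨k, hk⟩ := hImin (Option (Set.Iio ν))
      (fun o => Option.casesOn o (φ (E ν)) (fun μ => G μ.1 μ.2)) hJ
    obtain ⟨m, hm1, hm2, hm3⟩ := exists_maj h k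
    refine ⟨m, hm1, hm2, ?_, ?_⟩
    · obtain ⟨η, hη⟩ := hk none
      exact ⟨η, fun x hx => (hη x hx).trans (hm3 x)⟩
    · intro μ hμ
      obtain ⟨η, hη⟩ := hk (some ⟨μ, hμ⟩)
      exact ⟨η, fun x hx => (hη x hx).trans (hm3 x)⟩
  choose M hM1 hM2 hM3 hM4 using hstep
  let g : (#I).ord.ToType → K → K := (wellFounded_lt (α := (#I).ord.ToType)).fix M
  have hg : ∀ ν, g ν = M ν (fun μ _ => g μ) := fun ν => WellFounded.fix_eq _ _ _
  have hg1 : ∀ ν x y, x ≤ y → g ν x ≤ g ν y := fun ν => by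
    rw [hg]
    exact hM1 _ _
  have hg2 : ∀ ν x, x < g ν x := fun ν => by
    rw [hg]
    exact hM2 _ _
  have hg3 : ∀ ν, Les (φ (E ν)) (g ν) := fun ν => by
    rw [hg]
    exact hM3 _ _
  have hg4 : ∀ μ ν, μ < ν → Les (g μ) (g ν) := fun μ ν hμν => by
    rw [hg ν]
    exact hM4 ν (fun μ _ => g μ) μ hμν
  have hne : Nonempty K := nonempty_of_regK h
  refine ⟨(#I).ord.ToType, inferInstance, inferInstance, g, ⟨hg1, hg2, hg4, ?_⟩, ?_⟩
  · intro D
    by_contra hcon
    push Not at hcon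
    obtain ⟨k, hk⟩ := bdd_seq h (fun j => g (D j))
    obtain ⟨i, hi⟩ := hφ k
    obtain ⟨j, hj⟩ := hcon (E.symm i)
    have h1 : Les (g (E.symm i)) k := by
      rcases hj.lt_or_eq with hlt | heq
      · exact (hg4 _ _ hlt).trans (hk j)
      · rw [heq]
        exact hk j
    have h2 : Les (φ i) k := by
      have := (hg3 (E.symm i)).trans h1
      rwa [Equiv.apply_symm_apply] at this
    obtain ⟨η, hη⟩ := h2
    obtain ⟨x, hx, hηx⟩ := hi.ub η
    exact absurd hx (not_lt.2 (hη x hηx))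
  · intro ψ
    obtain ⟨i, hi⟩ := hφ ψ
    refine ⟨E.symm i, ?_⟩
    have h2 := hg3 (E.symm i)
    rw [Equiv.apply_symm_apply] at h2
    obtain ⟨η, hη⟩ := h2
    refine (hi.tail η).mono ?_
    rintro x ⟨hx, hηx⟩
    exact ⟨mem_univ x, lt_of_lt_of_le hx (hη x hηx)⟩

end Pool.Agent.LibGP76
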