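import Pool.Agent.LibGP76.Basic

/-! [GP76 D1] Regular cardinals that are not weakly Mahlo. -/

set_option autoImplicit false

namespace Pool.Agent.LibGP76

open Cardinal Set Order

universe u

/-- `κ` is weakly Mahlo: `κ` is regular and uncountable, and the set of regular cardinals below `κ`
is stationary, i.e. for every function `f` from the cardinals below `κ` to the cardinals below `κ`
some regular cardinal `θ < κ` is closed under `f`. -/
def WeaklyMahlo (κ : Cardinal.{u}) : Prop :=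
  ℵ₀ < κ ∧ κ.IsRegular ∧
    ∀ f : Cardinal.{u} → Cardinal.{u}, (∀ μ < κ, f μ < κ) → ∃ θ < κ, θ.IsRegular ∧ ∀ μ < θ, f μ < θ

theorem regK_ord {κ : Cardinal.{u}} (hκ : κ.IsRegular) (hu : ℵ₀ < κ) : RegK κ.ord.ToType := by
  refine ⟨by rwa [mk_ord_toType], fun c => by rw [mk_ord_toType]; exact mk_Iio_toType_ord_lt c, ?_⟩
  intro S hS
  rw [mk_ord_toType] at hS
  by_contra hcon
  push Not at hcon
  have h1 : IsCofinal S := fun c => by
    obtain ⟨s, hs, hcs⟩ := hcon c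
    exact ⟨s, hs, hcs⟩
  have h2 := Order.cof_le h1
  rw [Ordinal.cof_toType, hκ.cof_ord] at h2
  exact absurd hS (not_lt.2 h2)

/-- The index of a point. -/
noncomputable def idx {κ : Cardinal.{u}} (x : κ.ord.ToType) : Ordinal.{u} :=
  Ordinal.typein (α := κ.ord.ToType) (· < ·) x

theorem idx_lt_idx {κ : Cardinal.{u}} {x y : κ.ord.ToType} : idx x < idx y ↔ x < y :=
  Ordinal.typein_lt_typein (α := κ.ord.ToType) (· < ·)

theorem card_idx {κ : Cardinal.{u}} (x : κ.ord.ToType) : (idx x).card = #(Set.Iio x) :=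
  Ordinal.card_typein (r := fun a b : κ.ord.ToType => a < b) x

theorem exists_pt {κ c : Cardinal.{u}} (hc : c < κ) :
    ∃ y : κ.ord.ToType, idx y = c.ord ∧ #(Set.Iio y) = c := by
  have h1 : c.ord < Ordinal.type (α := κ.ord.ToType) (· < ·) := by
    rw [Ordinal.type_toType]
    exact ord_lt_ord.2 hc
  refine ⟨Ordinal.enum (α := κ.ord.ToType) (· < ·) ⟨c.ord, h1⟩, ?_, ?_⟩
  · exact Ordinal.typein_enum _ _
  · rw [← card_idx]
    unfold idx
    rw [Ordinal.typein_enum, card_ord]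

theorem sing_of_not_wm {κ : Cardinal.{u}} (hκ : κ.IsRegular) (hu : ℵ₀ < κ)
    (hw : ¬ WeaklyMahlo κ) :
    ∃ (b : κ.ord.ToType → κ.ord.ToType) (η : κ.ord.ToType), ∀ x ∈ Cl b, η < x → Sing x := by
  classical
  have h := regK_ord hκ hu
  have h1 : ∃ f : Cardinal.{u} → Cardinal.{u}, (∀ μ < κ, f μ < κ) ∧
      ∀ θ < κ, θ.IsRegular → ∃ μ < θ, θ ≤ f μ := by
    by_contra hcon
    push Not at hcon
    exact hw ⟨hu, hκ, hcon⟩
  obtain ⟨f, hf, hfr⟩ := h1
  have hbex : ∀ y : κ.ord.ToType, ∃ z, y < z ∧ f #(Set.Iio y) ≤ #(Set.Iio z) := by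
    intro y
    obtain ⟨z, -, hz⟩ := exists_pt (hf _ (mk_Iio_toType_ord_lt y))
    obtain ⟨w, hw⟩ := exists_gt' h y
    refine ⟨max z w, hw.trans_le (le_max_right _ _), ?_⟩
    rw [← hz]
    exact mk_le_mk_of_subset (Set.Iio_subset_Iio (le_max_left _ _))
  choose b hb1 hb2 using hbex
  obtain ⟨η, -, hη⟩ := exists_pt hu
  refine ⟨b, η, fun x hx hηx => ?_⟩
  have hinf : ℵ₀ ≤ #(Set.Iio x) := by
    rw [← hη]
    exact mk_le_mk_of_subset (Set.Iio_subset_Iio hηx.le)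
  have hxκ : #(Set.Iio x) < κ := mk_Iio_toType_ord_lt x
  obtain ⟨s, hs, hsc⟩ := Order.exists_cof_eq (Set.Iio x)
  have hc1 : Order.cof (Set.Iio x) ≤ #(Set.Iio x) := Order.cof_le_cardinalMk _
  have hcof : (idx x).cof = Order.cof (Set.Iio x) := (Order.cof_Iio x).symm
  by_cases hlt : (Order.cof (Set.Iio x)).ord < idx x
  · -- singular
    obtain ⟨y, hy1, hy2⟩ := exists_pt (hc1.trans_lt hxκ)
    have hyx : y < x := by
      rw [← idx_lt_idx, hy1]
      exact hlt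
    have hequiv : Nonempty (Set.Iio y ≃ s) := by
      rw [← Cardinal.eq, hy2, hsc]
    obtain ⟨e⟩ := hequiv
    refine ⟨y, hyx, fun i => if hi : i < y then ((e ⟨i, hi⟩ : s) : Set.Iio x).1 else i, ?_, ?_⟩
    · intro i hi
      simp only [dif_pos hi]
      exact (e ⟨i, hi⟩ : s).1.2
    · intro z hz
      obtain ⟨w, hws, hzw⟩ := hs ⟨b z, hx z hz⟩
      refine ⟨(e.symm ⟨w, hws⟩ : Set.Iio y).1, (e.symm ⟨w, hws⟩).2, ?_⟩
      have h2 : (e.symm ⟨w, hws⟩ : Set.Iio y).1 < y := (e.symm ⟨w, hws⟩).2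
      simp only [dif_pos h2, Subtype.coe_eta, Equiv.apply_symm_apply]
      exact (hb1 z).trans_le hzw
  · exfalso
    have hidx : (Order.cof (Set.Iio x)).ord = idx x := by
      refine le_antisymm ?_ (not_lt.1 hlt)
      rw [← hcof]
      exact Ordinal.ord_cof_le _
    have hθ : Order.cof (Set.Iio x) = #(Set.Iio x) := by
      rw [← card_idx, ← hidx, card_ord]
    have hreg : (#(Set.Iio x)).IsRegular := by
      refine ⟨hinf, ?_⟩
      rw [← hθ, hidx, hcof]
    obtain ⟨μ, hμ, hfμ⟩ := hfr _ hxκ hreg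
    obtain ⟨y, hy1, hy2⟩ := exists_pt (hμ.trans hxκ)
    have hyx : y < x := by
      rw [← idx_lt_idx, hy1, ← hidx, hθ]
      exact ord_lt_ord.2 hμ
    have hbx := hx y hyx
    have h2 : #(Set.Iio (b y)) < #(Set.Iio x) := by
      rw [← card_idx (b y), ← lt_ord, ← hθ, hidx]
      exact idx_lt_idx.2 hbx
    have h3 := hb2 y
    rw [hy2] at h3
    exact absurd h2 (not_lt.2 (hfμ.trans h3))

/-- Successor cardinals are not weakly Mahlo. -/
theorem not_wm_succ (μ : Cardinal.{u}) : ¬ WeaklyMahlo (succ μ) := by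
  rintro ⟨-, -, h3⟩
  obtain ⟨θ, hθ, hr, h4⟩ := h3 (fun _ => μ) (fun _ _ => lt_succ μ)
  exact absurd (h4 0 hr.pos) (not_lt.2 (lt_succ_iff.1 hθ))

end Pool.Agent.LibGP76
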