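import Pool.Agent.LibGP76.RCase
import Pool.Agent.LibGP76.NCase
import Pool.Agent.LibGP76.Scale
import Pool.Agent.LibGP76.Ladder
import Pool.Agent.LibGP76.Dich
import Pool.Agent.LibGP76.WM
import Pool.Agent.LibGP.Top

/-! [GP76 D2] Assembly. -/

set_option autoImplicit false

namespace Pool.Agent.LibGP76

open Cardinal Set Order Topology

universe u

/-- All uniform ultrafilters, if all large points of some closed unbounded set are singular. -/
theorem good_of_sing {K : Type u} [LinearOrder K] [WellFoundedLT K] (h : RegK K)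
    (hs : ∃ (b : K → K) (η : K), ∀ x ∈ Cl b, η < x → Sing x) (p : Ultrafilter K)
    (hp : ∀ X ∈ p, Ub X) : GoodClass p := by
  obtain ⟨L, _, _, g, hg, hu⟩ := exists_scale h
  rcases dichotomy h p hp with ⟨b, hb⟩ | ⟨s, hs1, hs2⟩
  · obtain ⟨b₁, η, h1⟩ := hs
    obtain ⟨col, hcol⟩ := col_sing h (pos_posit h hg) hu b₁ η h1
    exact n_case h p hp b hb hg col hcol
  · obtain ⟨col, hcol⟩ := col_stat h
    exact r_case h p hp s hs1 hs2 hg hu col hcol

/-- All regular uniform ultrafilters. -/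
theorem good_of_reg {K : Type u} [LinearOrder K] [WellFoundedLT K] (h : RegK K)
    (p : Ultrafilter K) (hp : ∀ X ∈ p, Ub X) (W : K → Set K) (hW : ∀ a, W a ∈ p)
    (hfin : ∀ x, {a | x ∈ W a}.Finite) : GoodClass p := by
  classical
  obtain ⟨L, _, _, g, hg, hu⟩ := exists_scale h
  obtain ⟨col, hcol⟩ := col_stat h
  refine r_case h p hp (fun x => (hfin x).toFinset.filter (fun a => a < x)) ?_ ?_ hg hu col hcol
  · intro x j hj
    exact (Finset.mem_filter.1 hj).2
  · intro j
    refine Filter.mem_of_superset (Filter.inter_mem (hW j) (ult_tail p hp j)) ?_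
    rintro x ⟨h1, h2⟩
    simp only [mem_setOf_eq, Finset.mem_filter, Set.Finite.mem_toFinset]
    exact ⟨h1, h2⟩

/-- From classes of sets on `K` to disjoint open sets in the space of uniform ultrafilters. -/
theorem open_of_goodClass {A K : Type u} [LinearOrder K] (h : RegK K) (e : A ≃ K)
    (p : LibGP.UPt A) (hp : GoodClass (p.1.map e)) (F : Set (Set A)) (hF : ∀ s ∈ F, #s = #A)
    (hFF : F.Pairwise fun s t => #(s ∩ t : Set A) < #A) :
    ∃ 𝒪 : Set (Set (LibGP.UPt A)), #𝒪 = #F ∧ 𝒪.PairwiseDisjoint id ∧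
      (∀ O ∈ 𝒪, IsOpen O ∧ p ∈ frontier O) := by
  classical
  have hAK : #A = #K := Cardinal.mk_congr e
  have hA : ℵ₀ ≤ #A := hAK ▸ h.unc.le
  obtain ⟨Cls, h1, h2, h3⟩ := hp
  choose t ht1 ht2 ht3 using fun s : F => LibGP.exists_halves hA s.1 (hF s.1 s.2)
  have himg : ∀ S : Set A, Ub (e '' S) ↔ #S = #A := by
    intro S
    rw [ub_iff h, mk_image_eq e.injective, hAK]
  have hpre : ∀ B : Set K, #(e ⁻¹' B : Set A) = #B := by
    intro B
    have := mk_image_eq (s := e ⁻¹' B) e.injective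
    rw [Set.image_preimage_eq _ e.surjective] at this
    exact this.symm
  refine LibGP.open_of_family hA p (F := F) (K := Set K)
    (fun B x => if Cls (e '' (t x.1 x.2)) B then e ⁻¹' B else ∅) ?_ ?_
  · intro B B' x x' hne
    by_cases hB : Cls (e '' (t x.1 x.2)) B
    · by_cases hB' : Cls (e '' (t x'.1 x'.2)) B'
      · rw [if_pos hB, if_pos hB', ← preimage_inter, hpre, hAK, ← not_ub_iff h]
        refine h2 _ _ ?_ B B' hB hB'
        rw [← image_inter e.injective, himg]
        refine ne_of_lt ?_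
        by_cases hx : x.1 = x'.1
        · have hb : x.2 ≠ x'.2 := fun hb => hne (Prod.ext hx hb)
          have hd : (t x.1 x.2 ∩ t x'.1 x'.2 : Set A) = ∅ := by
            rw [← hx, ← disjoint_iff_inter_eq_empty]
            rcases x.2.eq_false_or_eq_true with k1 | k1 <;>
              rcases x'.2.eq_false_or_eq_true with k2 | k2
            · exact absurd (k1.trans k2.symm) hb
            · rw [k1, k2]; exact (ht3 _).symm
            · rw [k1, k2]; exact ht3 _
            · exact absurd (k1.trans k2.symm) hb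
          rw [hd, mk_eq_zero]
          exact aleph0_pos.trans_le hA
        · refine (mk_le_mk_of_subset (inter_subset_inter (ht1 _ _) (ht1 _ _))).trans_lt ?_
          exact hFF x.1.2 x'.1.2 (fun h' => hx (Subtype.ext h'))
      · rw [if_neg hB', inter_empty, mk_eq_zero]
        exact aleph0_pos.trans_le hA
    · rw [if_neg hB, empty_inter, mk_eq_zero]
      exact aleph0_pos.trans_le hA
  · intro s hs x
    have hs' : e '' s ∈ p.1.map e := by
      rw [Ultrafilter.mem_map, preimage_image_eq _ e.injective]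
      exact hs
    obtain ⟨B, hB1, hB2⟩ := h3 _ hs' (e '' (t x.1 x.2)) ((himg _).2 (ht2 _ _))
    refine ⟨B, ?_⟩
    rw [if_pos hB2, inter_eq_left.2, hpre, hAK]
    · exact (ub_iff h B).1 (h1 _ _ hB2)
    · intro y hy
      obtain ⟨z, hz, hzy⟩ := hB1 hy
      rwa [← e.injective hzy]

theorem ub_of_map {A K : Type u} [LinearOrder K] (h : RegK K) (e : A ≃ K)
    (p : LibGP.UPt A) : ∀ X ∈ p.1.map e, Ub X := by
  intro X hX
  rw [ub_iff h]
  have h1 := p.2 _ (Ultrafilter.mem_map.1 hX)
  have := mk_image_eq (s := e ⁻¹' X) e.injective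
  rw [Set.image_preimage_eq _ e.surjective] at this
  rw [this, h1, Cardinal.mk_congr e]

theorem main_not_wm {A : Type u} (hA : ℵ₀ < #A) (hr : (#A).IsRegular) (hw : ¬ WeaklyMahlo #A)
    (p : LibGP.UPt A) (F : Set (Set A)) (hF : ∀ s ∈ F, #s = #A)
    (hFF : F.Pairwise fun s t => #(s ∩ t : Set A) < #A) :
    ∃ 𝒪 : Set (Set (LibGP.UPt A)), #𝒪 = #F ∧ 𝒪.PairwiseDisjoint id ∧
      (∀ O ∈ 𝒪, IsOpen O ∧ p ∈ frontier O) := by
  have h := regK_ord hr hA
  obtain ⟨e⟩ : Nonempty (A ≃ (#A).ord.ToType) := Cardinal.eq.1 (mk_ord_toType #A).symm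
  exact open_of_goodClass h e p
    (good_of_sing h (sing_of_not_wm hr hA hw) _ (ub_of_map h e p)) F hF hFF

theorem main_reg {A : Type u} (hA : ℵ₀ < #A) (hr : (#A).IsRegular)
    (p : LibGP.UPt A) (W : A → Set A) (hW : ∀ a, W a ∈ p.1) (hfin : ∀ x, {a | x ∈ W a}.Finite)
    (F : Set (Set A)) (hF : ∀ s ∈ F, #s = #A)
    (hFF : F.Pairwise fun s t => #(s ∩ t : Set A) < #A) :
    ∃ 𝒪 : Set (Set (LibGP.UPt A)), #𝒪 = #F ∧ 𝒪.PairwiseDisjoint id ∧
      (∀ O ∈ 𝒪, IsOpen O ∧ p ∈ frontier O) := by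
  have h := regK_ord hr hA
  obtain ⟨e⟩ : Nonempty (A ≃ (#A).ord.ToType) := Cardinal.eq.1 (mk_ord_toType #A).symm
  refine open_of_goodClass h e p (good_of_reg h _ (ub_of_map h e p)
    (fun k => e '' (W (e.symm k))) ?_ ?_) F hF hFF
  · intro k
    rw [Ultrafilter.mem_map, preimage_image_eq _ e.injective]
    exact hW _
  · intro k
    have : {a | k ∈ e '' (W (e.symm a))} ⊆ e '' {a | e.symm k ∈ W a} := by
      rintro a ⟨y, hy, rfl⟩
      exact ⟨e.symm a, by simpa using hy, by simp⟩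
    exact ((hfin _).image e).subset this

end Pool.Agent.LibGP76
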