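import Pool.Agent.LibGP76.Basic

/-! [GP76 A1] Fodor's lemma, and its version for finite sets. -/

set_option autoImplicit false

namespace Pool.Agent.LibGP76

open Cardinal Set

universe u

variable {K : Type u} [LinearOrder K] [WellFoundedLT K]

omit [WellFoundedLT K] in
/-- Fodor. -/
theorem fodor (h : RegK K) {S : Set K} (hS : Stat S) (f : K → K) (hf : ∀ x ∈ S, f x < x) :
    ∃ ζ, Stat {x | x ∈ S ∧ f x = ζ} := by
  haveI := nonempty_of_regK h
  by_contra hcon
  push Not at hcon
  choose b η hb using fun ζ => not_stat (hcon ζ)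
  choose B1 hB1 using fun (ζ y : K) => exists_sup_Iic h y (b ζ)
  choose B hB using fun (y : K) => exists_sup_Iic h y (fun ζ => max (B1 ζ y) (η ζ))
  obtain ⟨c, hc, -, hcB⟩ := hS B (Classical.arbitrary K)
  have hfc := hf c hc
  refine hb (f c) c ⟨hc, rfl⟩ ?_ ?_
  · exact (lt_of_le_of_lt (le_max_right _ _) (hB (f c) (f c) le_rfl)).trans (hcB _ hfc)
  · intro z hz
    have hy : max (f c) z < c := max_lt hfc hz
    have h1 := hB1 (f c) (max (f c) z) z (le_max_right _ _)
    have h2 := hB (max (f c) z) (f c) (le_max_left _ _)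
    exact (h1.trans (lt_of_le_of_lt (le_max_left _ _) h2)).trans (hcB _ hy)

omit [WellFoundedLT K] in
theorem stat_posit (h : RegK K) : Posit (Stat : Set K → Prop) := by
  haveI := nonempty_of_regK h
  exact ⟨fun S hS => hS.nonempty, fun S T hST hS => hS.mono hST, fun S η hS => hS.tail η,
    fun S f hS hf => fodor h hS f hf⟩

omit [WellFoundedLT K] in
/-- Fodor for finite sets. -/
theorem fodor_fin (h : RegK K) {S : Set K} (hS : Stat S) (R : K → Finset K)
    (hR : ∀ x ∈ S, ∀ y ∈ R x, y < x) :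
    ∃ R₀, Stat {x | x ∈ S ∧ R x = R₀} := by
  classical
  haveI := nonempty_of_regK h
  haveI hinf : Infinite K := Cardinal.infinite_iff.2 h.unc.le
  obtain ⟨e⟩ : Nonempty (Finset K ≃ K) := Cardinal.eq.1 (Cardinal.mk_finset_of_infinite K)
  have hsmall : ∀ y : K, #(Finset (Set.Iic y)) < #K := by
    intro y
    by_cases hf : Finite (Set.Iic y)
    · exact (Cardinal.mk_lt_aleph0_iff.2 inferInstance).trans h.unc
    · haveI : Infinite (Set.Iic y) := not_finite_iff_infinite.1 hf
      rw [Cardinal.mk_finset_of_infinite]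
      exact small_Iic h y
  choose b hb using fun y : K => exists_sup h (hsmall y)
    (fun T : Finset (Set.Iic y) => e (T.map (Function.Embedding.subtype _)))
  have hb' : ∀ y (T : Finset K), (∀ z ∈ T, z ≤ y) → e T < b y := by
    intro y T hT
    have h1 := hb y (T.subtype (fun z => z ∈ Set.Iic y))
    have h2 : (T.subtype (fun z => z ∈ Set.Iic y)).map
        (Function.Embedding.subtype (fun z => z ∈ Set.Iic y)) = T :=
      Finset.subtype_map_of_mem (fun z hz => hT z hz)
    rwa [h2] at h1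
  have hS' := (hS.inter_cl b).tail (e ∅)
  obtain ⟨ζ, hζ⟩ := fodor h hS' (fun x => e (R x)) (by
    rintro x ⟨⟨hxS, hxb⟩, hx0⟩
    by_cases hne : (R x).Nonempty
    · have hm : (R x).max' hne < x := hR x hxS _ (Finset.max'_mem _ _)
      exact (hb' _ (R x) (fun z hz => Finset.le_max' _ _ hz)).trans (hxb _ hm)
    · rw [Finset.not_nonempty_iff_eq_empty] at hne
      rw [hne]
      exact hx0)
  refine ⟨e.symm ζ, hζ.mono ?_⟩
  rintro x ⟨⟨⟨hxS, _⟩, _⟩, hx⟩
  exact ⟨hxS, by rw [← hx, Equiv.symm_apply_apply]⟩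

end Pool.Agent.LibGP76
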