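import Pool.Agent.LibGP76.Fodor

/-! [GP76 B4] Positive sets of a scale; escaping; levels. -/

set_option autoImplicit false

namespace Pool.Agent.LibGP76

open Cardinal Set

universe u

variable {K : Type u} [LinearOrder K] [WellFoundedLT K] {L : Type u} [LinearOrder L]

omit [WellFoundedLT K] in
/-- All larger levels work as well. -/
theorem Pos.esc {g : L → K → K} (hg : Sc g) {S : Set K} (hS : Pos g S) (ψ : K → K) :
    ∃ δ₀, ∀ δ, δ₀ ≤ δ → Stat {x | x ∈ S ∧ ψ x < g δ x} := by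
  obtain ⟨δ₀, h0⟩ := hS ψ
  refine ⟨δ₀, fun δ hδ => ?_⟩
  rcases lt_or_eq_of_le hδ with h1 | h1
  · obtain ⟨η, hη⟩ := hg.inc _ _ h1
    refine (h0.tail η).mono ?_
    rintro x ⟨⟨hx1, hx2⟩, hx3⟩
    exact ⟨hx1, hx2.trans_le (hη x hx3)⟩
  · rw [← h1]
    exact h0

omit [WellFoundedLT K] in
theorem pos_posit (h : RegK K) {g : L → K → K} (hg : Sc g) : Posit (Pos g) := by
  haveI := nonempty_of_regK h
  refine ⟨?_, ?_, ?_, ?_⟩
  · intro S hS
    obtain ⟨δ, hδ⟩ := hS id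
    obtain ⟨x, hx⟩ := hδ.nonempty
    exact ⟨x, hx.1⟩
  · intro S T hST hS ψ
    obtain ⟨δ, hδ⟩ := hS ψ
    exact ⟨δ, hδ.mono fun x hx => ⟨hST hx.1, hx.2⟩⟩
  · intro S η hS ψ
    obtain ⟨δ, hδ⟩ := hS ψ
    exact ⟨δ, (hδ.tail η).mono fun x hx => ⟨⟨hx.1.1, hx.2⟩, hx.1.2⟩⟩
  · intro S f hS hf
    by_contra hcon
    push Not at hcon
    have h1 : ∀ ζ, ∃ ψ : K → K, ∀ δ, ¬ Stat {x | x ∈ {x | x ∈ S ∧ f x = ζ} ∧ ψ x < g δ x} := by
      intro ζ
      have := hcon ζ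
      unfold Pos at this
      push Not at this
      exact this
    choose ψ hψ using h1
    obtain ⟨δ, hδ⟩ := hS (fun x => ψ (f x) x)
    obtain ⟨ζ, hζ⟩ := fodor h hδ f (fun x hx => hf x hx.1)
    refine hψ ζ δ (hζ.mono ?_)
    rintro x ⟨⟨hx1, hx2⟩, hx3⟩
    refine ⟨⟨hx1, hx3⟩, ?_⟩
    rw [← hx3]
    exact hx2

omit [WellFoundedLT K] in
/-- Unboundedness on every unbounded set `Z`. -/
theorem esc_ub (h : RegK K) {g : L → K → K} (hg : Sc g) (hu : Pos g univ) (Z : Set K) (hZ : Ub Z)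
    (ψ : K → K) : ∃ δ₀, ∀ δ, δ₀ ≤ δ → Ub {x | x ∈ Z ∧ ψ x < g δ x} := by
  choose z hz1 hz2 using hZ
  obtain ⟨δ₀, h0⟩ := hu.esc hg (fun y => ψ (z y))
  refine ⟨δ₀, fun δ hδ c => ?_⟩
  obtain ⟨y, hy, hcy⟩ := (h0 δ hδ).ub c
  exact ⟨z y, ⟨hz1 y, hy.2.trans_le (hg.mono _ _ _ (hz2 y).le)⟩, hcy.trans (hz2 y)⟩

omit [WellFoundedLT K] in
/-- Thresholds for an increasing sequence of levels. -/
theorem exists_thr (h : RegK K) {g : L → K → K} (hg : Sc g) (β : K → L)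
    (hβ : ∀ i j, i < j → β i < β j) :
    ∃ τ : K → K, ∀ i j, i < j → ∀ x, τ j < x → g (β i) x ≤ g (β j) x := by
  classical
  haveI := nonempty_of_regK h
  have h1 : ∀ i j, ∃ η, i < j → ∀ x, η < x → g (β i) x ≤ g (β j) x := by
    intro i j
    by_cases hij : i < j
    · obtain ⟨η, hη⟩ := hg.inc _ _ (hβ i j hij)
      exact ⟨η, fun _ => hη⟩
    · exact ⟨Classical.arbitrary K, fun h => absurd h hij⟩
  choose η hη using h1
  choose τ hτ using fun j => exists_sup_Iio h j (fun i => η i j)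
  exact ⟨τ, fun i j hij x hx => hη i j hij x ((hτ j i hij).trans hx)⟩

omit [WellFoundedLT K] in
/-- For `β < β'` the club `Cl (g β')` is almost contained in `Cl (g β)`. -/
theorem cl_almost {g : L → K → K} (hg : Sc g) {β β' : L} (hβ : β < β') :
    ∃ η, ∀ c, η < c → c ∈ Cl (g β') → c ∈ Cl (g β) := by
  obtain ⟨η, hη⟩ := hg.inc _ _ hβ
  refine ⟨max η (g β η), fun c hc hcl y hy => ?_⟩
  by_cases hyη : η < y
  · exact (hη y hyη).trans_lt (hcl y hy)
  · exact (hg.mono β y η (not_lt.1 hyη)).trans_lt (lt_of_le_of_lt (le_max_right _ _) hc)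

/-- Recursive choice of increasing sequences. -/
theorem exists_seq (h : RegK K) {T : Type u} (Φ : K → T → Prop) (m : T → K) (M : K → T → K)
    (hΦ : ∀ j z, ∃ t, z < m t ∧ Φ j t) :
    ∃ t : K → T, (∀ j, Φ j (t j)) ∧ (∀ j, j < m (t j)) ∧ ∀ i j, i < j → M i (t i) < m (t j) := by
  classical
  choose c hc1 hc2 using hΦ
  -- a bound for the values of a function on `Iio j`
  have hb : ∀ (j : K) (f : (i : K) → i < j → K), ∃ z, ∀ i (hi : i < j), f i hi < z := by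
    intro j f
    obtain ⟨z, hz⟩ := exists_sup h (h.small j) (fun i : Set.Iio j => f i.1 i.2)
    exact ⟨z, fun i hi => hz ⟨i, hi⟩⟩
  choose sp hsp using hb
  let t : K → T := wellFounded_lt.fix (fun j rec => c j (max j (sp j (fun i hi => M i (rec i hi)))))
  have ht : ∀ j, t j = c j (max j (sp j (fun i _ => M i (t i)))) := fun j =>
    wellFounded_lt.fix_eq _ j
  refine ⟨t, ?_, ?_, ?_⟩
  · intro j
    rw [ht]
    exact hc2 _ _
  · intro j
    rw [ht]
    exact lt_of_le_of_lt (le_max_left _ _) (hc1 _ _)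
  · intro i j hij
    rw [ht j]
    have h1 := hsp j (fun i _ => M i (t i)) i hij
    exact h1.trans (lt_of_le_of_lt (le_max_right _ _) (hc1 _ _))

variable [WellFoundedLT L]

/-- Levels of cofinality `#K` closed under `D`. -/
theorem levels (h : RegK K) {g : L → K → K} (hg : Sc g) (D : L → L) (ν₀ : L) :
    ∃ (β : K → L) (δ : L), (∀ i j, i < j → β i < β j) ∧ (∀ j, ν₀ < β j) ∧ (∀ j, β j < δ) ∧
      (∀ j, D (β j) ≤ δ) ∧ ∀ ν < δ, ∃ j, ν < β j := by
  classical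
  have hb : ∀ (j : K) (f : (i : K) → i < j → L), ∃ z, ν₀ < z ∧ ∀ i (hi : i < j), f i hi < z := by
    intro j f
    obtain ⟨z, hz⟩ := hg.bd (fun i => if hi : i < j then f i hi else ν₀)
    refine ⟨z, ?_, ?_⟩
    · have := hz j
      rwa [dif_neg (lt_irrefl j)] at this
    · intro i hi
      have := hz i
      rwa [dif_pos hi] at this
  choose sp hsp1 hsp2 using hb
  let β : K → L := wellFounded_lt.fix (fun j rec => sp j (fun i hi => max (rec i hi) (D (rec i hi))))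
  have hβ : ∀ j, β j = sp j (fun i _ => max (β i) (D (β i))) := fun j =>
    wellFounded_lt.fix_eq _ j
  have h1 : ∀ i j, i < j → max (β i) (D (β i)) < β j := by
    intro i j hij
    rw [hβ j]
    exact hsp2 j (fun i _ => max (β i) (D (β i))) i hij
  obtain ⟨δ₀, hδ₀⟩ := hg.bd β
  obtain ⟨δ, hδ, hmin⟩ := wellFounded_lt.has_min {ν : L | ∀ j, β j < ν} ⟨δ₀, hδ₀⟩
  refine ⟨β, δ, fun i j hij => lt_of_le_of_lt (le_max_left _ _) (h1 i j hij), ?_, hδ, ?_, ?_⟩
  · intro j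
    rw [hβ j]
    exact hsp1 _ _
  · intro j
    obtain ⟨k, hk⟩ := exists_gt' h j
    exact ((lt_of_le_of_lt (le_max_right _ _) (h1 j k hk)).trans (hδ k)).le
  · intro ν hν
    have h2 : ¬ (ν ∈ {ν : L | ∀ j, β j < ν}) := fun h' => hmin ν h' hν
    simp only [mem_setOf_eq, not_forall, not_lt] at h2
    obtain ⟨j, hj⟩ := h2
    obtain ⟨k, hk⟩ := exists_gt' h j
    exact ⟨k, hj.trans_lt (lt_of_le_of_lt (le_max_left _ _) (h1 j k hk))⟩

end Pool.Agent.LibGP76
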