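import Pool.Agent.LibGP76.PosG

/-! [GP76 C3] The regular case of the dichotomy. -/

set_option autoImplicit false

namespace Pool.Agent.LibGP76

open Cardinal Set

universe u

variable {K : Type u} [LinearOrder K] [WellFoundedLT K] {L : Type u} [LinearOrder L]

open Classical in
/-- The first element of `s x` that is at least `i` (and `x` if there is none). -/
noncomputable def hd (s : K → Finset K) (i x : K) : K :=
  if H : ((s x).filter (fun j => i ≤ j)).Nonempty then ((s x).filter (fun j => i ≤ j)).min' H else x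

omit [WellFoundedLT K] in
theorem hd_eq {s : K → Finset K} {i x c : K} (hc : c ∈ s x) (hic : i ≤ c)
    (hmin : ∀ y ∈ s x, i ≤ y → c ≤ y) : hd s i x = c := by
  classical
  have H : ((s x).filter (fun j => i ≤ j)).Nonempty := ⟨c, by simp [hc, hic]⟩
  have h1 : hd s i x = ((s x).filter (fun j => i ≤ j)).min' H := by
    unfold hd
    rw [dif_pos]
  rw [h1]
  refine le_antisymm (Finset.min'_le _ _ (by simp [hc, hic])) ?_
  refine Finset.le_min' _ _ _ ?_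
  intro y hy
  simp only [Finset.mem_filter] at hy
  exact hmin y hy.1 hy.2

/-- The classes in the regular case. -/
def ClsR (s : K → Finset K) (g : L → K → K) (col : K → K) (C B : Set K) : Prop :=
  Ub B ∧ ∃ (δ : L) (i₀ : K) (β₀ : L), β₀ < δ ∧
    (∀ i, i₀ ≤ i → ∃ η, ∀ x ∈ B, η < x → hd s i x = hd s i₀ x) ∧
    (∃ η, ∀ x ∈ B, η < x → x < g δ (hd s i₀ x)) ∧
    (∀ β < δ, ∃ η, ∀ x ∈ B, η < x → g β (hd s i₀ x) ≤ x) ∧
    (∀ β < δ, β₀ ≤ β → ∃ η, ∀ x ∈ B, η < x → col (hd s (g β (hd s i₀ x)) x) ∈ C) ∧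
    (∀ β < δ, β₀ ≤ β → ∀ ζ, ∃ η, ∀ x ∈ B, η < x → ζ < col (hd s (g β (hd s i₀ x)) x))

omit [WellFoundedLT K] in
theorem orth_r (s : K → Finset K) (g : L → K → K) (col : K → K) (C C' : Set K)
    (hC : ¬ Ub (C ∩ C')) (B B' : Set K) (hB : ClsR s g col C B) (hB' : ClsR s g col C' B') :
    ¬ Ub (B ∩ B') := by
  intro hBB
  obtain ⟨hu, δ, i₀, β₀, hβ, h1, ⟨e2, h2⟩, h3, h4, h5⟩ := hB
  obtain ⟨hu', δ', i₀', β₀', hβ', h1', ⟨e2', h2'⟩, h3', h4', h5'⟩ := hB'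
  obtain ⟨a, ha⟩ := h1 (max i₀ i₀') (le_max_left _ _)
  obtain ⟨a', ha'⟩ := h1' (max i₀ i₀') (le_max_right _ _)
  have hξ : ∀ x ∈ B ∩ B', max a a' < x → hd s i₀ x = hd s i₀' x := by
    intro x hx hax
    rw [← ha x hx.1 (lt_of_le_of_lt (le_max_left _ _) hax),
      ← ha' x hx.2 (lt_of_le_of_lt (le_max_right _ _) hax)]
  rcases lt_trichotomy δ δ' with hd | hd | hd
  · obtain ⟨e3, h3⟩ := h3' δ hd
    obtain ⟨x, hx, hxl⟩ := hBB (max (max a a') (max e2 e3))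
    have k1 := hξ x hx (lt_of_le_of_lt (le_max_left _ _) hxl)
    have k2 := h2 x hx.1 (lt_of_le_of_lt ((le_max_left _ _).trans (le_max_right _ _)) hxl)
    have k3 := h3 x hx.2 (lt_of_le_of_lt ((le_max_right _ _).trans (le_max_right _ _)) hxl)
    rw [← k1] at k3
    exact absurd k2 (not_lt.2 k3)
  · subst hd
    have hm : max β₀ β₀' < δ := max_lt hβ hβ'
    unfold Ub at hC
    push Not at hC
    obtain ⟨ζ, hζ⟩ := hC
    obtain ⟨a4, h4⟩ := h4 _ hm (le_max_left _ _)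
    obtain ⟨a4', h4'⟩ := h4' _ hm (le_max_right _ _)
    obtain ⟨a5, h5⟩ := h5 _ hm (le_max_left _ _) ζ
    obtain ⟨x, hx, hxl⟩ := hBB (max (max a a') (max (max a4 a4') a5))
    have k1 := hξ x hx (lt_of_le_of_lt (le_max_left _ _) hxl)
    have k2 := h4 x hx.1 (lt_of_le_of_lt (((le_max_left _ _).trans (le_max_left _ _)).trans
      (le_max_right _ _)) hxl)
    have k3 := h4' x hx.2 (lt_of_le_of_lt (((le_max_right _ _).trans (le_max_left _ _)).trans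
      (le_max_right _ _)) hxl)
    have k4 := h5 x hx.1 (lt_of_le_of_lt ((le_max_right _ _).trans
      (le_max_right _ _)) hxl)
    rw [← k1] at k3
    exact absurd k4 (not_lt.2 (hζ _ ⟨k2, k3⟩))
  · obtain ⟨e3, h3⟩ := h3 δ' hd
    obtain ⟨x, hx, hxl⟩ := hBB (max (max a a') (max e2' e3))
    have k1 := hξ x hx (lt_of_le_of_lt (le_max_left _ _) hxl)
    have k2 := h2' x hx.2 (lt_of_le_of_lt ((le_max_left _ _).trans (le_max_right _ _)) hxl)
    have k3 := h3 x hx.1 (lt_of_le_of_lt ((le_max_right _ _).trans (le_max_right _ _)) hxl)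
    rw [k1] at k3
    exact absurd k2 (not_lt.2 k3)

variable [WellFoundedLT L]

/-- Density, with all choices made. -/
theorem dens_r (h : RegK K) (p : Ultrafilter K) (hp : ∀ X ∈ p, Ub X) (s : K → Finset K)
    (hs1 : ∀ x, ∀ j ∈ s x, j < x) (hs2 : ∀ j, {x | j ∈ s x} ∈ p) {g : L → K → K} (hg : Sc g)
    (hu : Pos g univ) (col : K → K) (hcol : ∀ a, Stat {x | col x = a}) (X : Set K) (hX : X ∈ p)
    (C : Set K) (hC : Ub C) : ∃ B, B ⊆ X ∧ ClsR s g col C B := by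
  classical
  haveI := nonempty_of_regK h
  -- colours
  choose a ha1 ha2 using fun c₀ => hC c₀
  -- points
  have hx : ∀ c₀ c₁ : K, ∃ x, x ∈ X ∧ c₀ ∈ s x ∧ c₁ ∈ s x := by
    intro c₀ c₁
    obtain ⟨x, hx⟩ := p.nonempty_of_mem (Filter.inter_mem hX (Filter.inter_mem (hs2 c₀) (hs2 c₁)))
    exact ⟨x, hx.1, hx.2.1, hx.2.2⟩
  choose x hx1 hx2 hx3 using hx
  -- first pressing down
  have hR : ∀ c₀ : K, ∃ R : Finset K,
      Stat {c₁ | c₁ ∈ {c₁ | col c₁ = a c₀} ∧ (s (x c₀ c₁)).filter (fun y => y < c₁) = R} := by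
    intro c₀
    refine fodor_fin h (hcol (a c₀)) (fun c₁ => (s (x c₀ c₁)).filter (fun y => y < c₁)) ?_
    intro c₁ _ y hy
    exact (Finset.mem_filter.1 hy).2
  choose R hRs using hR
  -- second pressing down
  obtain ⟨r, hr⟩ := fodor_fin h (stat_om h) (fun c₀ => (R c₀).filter (fun y => y < c₀)) (by
    intro c₀ _ y hy
    exact (Finset.mem_filter.1 hy).2)
  obtain ⟨δ₁, hδ₁⟩ := esc_ub h hg hu _ hr.ub (fun c₀ => if H : (R c₀).Nonempty then (R c₀).max' H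
    else c₀)
  have hT0 := hδ₁ δ₁ le_rfl
  set T : Set K := {c₀ | (R c₀).filter (fun y => y < c₀) = r ∧ ∀ y ∈ R c₀, y < g δ₁ c₀} with hTdef
  have hT : Ub T := by
    refine hT0.mono ?_
    rintro c₀ ⟨⟨_, h1⟩, h2⟩
    refine ⟨h1, ?_⟩
    intro y hy
    have hne : (R c₀).Nonempty := ⟨y, hy⟩
    rw [dif_pos hne] at h2
    exact lt_of_le_of_lt (Finset.le_max' _ _ hy) h2
  clear_value T
  -- the second point
  have hc1 : ∀ (β : L) (c₀ : K), ∃ c₁, g β c₀ < c₁ ∧ col c₁ = a c₀ ∧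
      (s (x c₀ c₁)).filter (fun y => y < c₁) = R c₀ := by
    intro β c₀
    obtain ⟨c₁, hc, hc'⟩ := (hRs c₀).ub (g β c₀)
    exact ⟨c₁, hc', hc.1, hc.2⟩
  choose c₁ hc1 hc2 hc3 using hc1
  choose D hD using fun β => esc_ub h hg hu T hT (fun c₀ => x c₀ (c₁ β c₀))
  obtain ⟨β, δ, hβ, hβ1, hβδ, hDδ, hδ⟩ := levels h hg D δ₁
  obtain ⟨τ, hτ⟩ := exists_thr h hg β hβ
  -- the recursion
  obtain ⟨c, hcΦ, hcj, hcM⟩ := exists_seq h
    (fun j c => (c ∈ T ∧ x c (c₁ (β j) c) < g δ c) ∧ τ j < c) id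
    (fun i c => x c (c₁ (β i) c)) (by
      intro j z
      obtain ⟨c, ⟨hc1, hc2⟩, hc3⟩ := hD (β j) δ (hDδ j) (max z (τ j))
      exact ⟨c, lt_of_le_of_lt (le_max_left _ _) hc3, ⟨hc1, hc2⟩,
        lt_of_le_of_lt (le_max_right _ _) hc3⟩)
  simp only [id] at hcj hcM
  let w : K → K := fun j => x (c j) (c₁ (β j) (c j))
  have hcw : ∀ j, c j < w j := fun j => hs1 _ _ (hx2 _ _)
  have hc1w : ∀ j, c₁ (β j) (c j) < w j := fun j => hs1 _ _ (hx3 _ _)
  have hwc : ∀ i j, i < j → w i < c j := hcM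
  have hwmono : ∀ i j, i < j → w i < w j := fun i j hij => (hwc i j hij).trans (hcw j)
  have hwlt : ∀ i j, w i < w j → i < j := by
    intro i j hij
    by_contra hcon
    rcases lt_or_eq_of_le (not_lt.1 hcon) with h1 | h1
    · exact lt_asymm hij (hwmono _ _ h1)
    · rw [h1] at hij
      exact lt_irrefl _ hij
  have hcT : ∀ j, c j ∈ T := fun j => (hcΦ j).1.1
  have hcδ : ∀ j, w j < g δ (c j) := fun j => (hcΦ j).1.2
  have hcτ : ∀ j, τ j < c j := fun j => (hcΦ j).2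
  -- monotonicity of the scale at c j
  have hgc : ∀ j i, i < j → g (β i) (c j) ≤ g (β j) (c j) := fun j i hij =>
    hτ i j hij _ (hcτ j)
  have hgc' : ∀ ν < δ, ∃ j₀, ∀ j, j₀ < j → g ν (c j) ≤ g (β j) (c j) := by
    intro ν hν
    obtain ⟨i, hi⟩ := hδ ν hν
    obtain ⟨η, hη⟩ := hg.inc _ _ hi
    refine ⟨max i η, fun j hj => ?_⟩
    refine (hη _ ?_).trans (hgc j i (lt_of_le_of_lt (le_max_left _ _) hj))
    exact lt_trans (lt_of_le_of_lt (le_max_right _ _) hj) (hcj j)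
  -- elements of s (w j)
  have hmemc : ∀ j, c j ∈ s (w j) := fun j => hx2 _ _
  have hmemc1 : ∀ j, c₁ (β j) (c j) ∈ s (w j) := fun j => hx3 _ _
  have hcc1 : ∀ j, c j < c₁ (β j) (c j) := fun j => (hg.gt _ _).trans (hc1 _ _)
  have hfil : ∀ j y, y ∈ s (w j) → y < c₁ (β j) (c j) → y ∈ R (c j) := by
    intro j y hy hy1
    rw [← hc3 (β j) (c j)]
    exact Finset.mem_filter.2 ⟨hy, hy1⟩
  have hRT : ∀ j y, y ∈ R (c j) → y < g δ₁ (c j) := by
    intro j y hy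
    have h1 := hcT j
    rw [hTdef] at h1
    exact h1.2 y hy
  have hrT : ∀ j y, y ∈ R (c j) → y < c j → y ∈ r := by
    intro j y hy hyc
    have h1 := hcT j
    rw [hTdef] at h1
    rw [← h1.1]
    exact Finset.mem_filter.2 ⟨hy, hyc⟩
  obtain ⟨i₀, hi₀⟩ : ∃ i₀ : K, ∀ y ∈ r, y < i₀ := by
    obtain ⟨i₀, hi⟩ := h.reg (r : Set K) ((Finset.countable_toSet r).le_aleph0.trans_lt h.unc)
    exact ⟨i₀, fun y hy => hi y hy⟩
  have hhd : ∀ i, i₀ ≤ i → ∀ j, i < j → hd s i (w j) = c j := by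
    intro i hi j hij
    refine hd_eq (hmemc j) (hij.le.trans (hcj j).le) ?_
    intro y hy hiy
    by_contra hcon
    rw [not_le] at hcon
    have h1 := hrT j y (hfil j y hy (hcon.trans (hcc1 j))) hcon
    exact lt_irrefl _ ((hi₀ y h1).trans_le (hi.trans hiy))
  have hidx : ∀ (P : K → Prop) (j₀ : K), (∀ j, j₀ < j → P (w j)) →
      ∃ η, ∀ x ∈ range w, η < x → P x := by
    intro P j₀ hP
    refine ⟨w j₀, ?_⟩
    rintro _ ⟨j, rfl⟩ hj
    exact hP j (hwlt _ _ hj)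
  have hcol1 : ∀ ν < δ, δ₁ ≤ ν → ∃ j₀, ∀ j, j₀ < j →
      hd s (g ν (hd s i₀ (w j))) (w j) = c₁ (β j) (c j) := by
    intro ν hν hν1
    obtain ⟨j₀, hj₀⟩ := hgc' ν hν
    have hle : ∃ η, ∀ y, η < y → g δ₁ y ≤ g ν y := by
      rcases lt_or_eq_of_le hν1 with h1 | h1
      · exact hg.inc _ _ h1
      · rw [h1]
        exact ⟨i₀, fun _ _ => le_rfl⟩
    obtain ⟨η, hη⟩ := hle
    refine ⟨max (max i₀ η) j₀, fun j hj => ?_⟩
    have e1 : i₀ < j := lt_of_le_of_lt ((le_max_left _ _).trans (le_max_left _ _)) hj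
    have e2 : η < j := lt_of_le_of_lt ((le_max_right _ _).trans (le_max_left _ _)) hj
    have e3 : j₀ < j := lt_of_le_of_lt (le_max_right _ _) hj
    rw [hhd i₀ le_rfl j e1]
    refine hd_eq (hmemc1 j) ((hj₀ j e3).trans (hc1 _ _).le) ?_
    intro y hy hgy
    by_contra hcon
    rw [not_le] at hcon
    have h1 := hRT j y (hfil j y hy hcon)
    have h2 := hη (c j) (e2.trans (hcj j))
    exact lt_irrefl _ (h1.trans_le (h2.trans hgy))
  refine ⟨range w, ?_, ?_, δ, i₀, δ₁, (hβ1 i₀).trans (hβδ i₀), ?_, ?_, ?_, ?_, ?_⟩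
  · rintro _ ⟨j, rfl⟩
    exact hx1 _ _
  · intro η
    exact ⟨w η, ⟨η, rfl⟩, (hcj η).trans (hcw η)⟩
  · intro i hi
    refine hidx (fun x => hd s i x = hd s i₀ x) i ?_
    intro j hj
    rw [hhd i hi j hj, hhd i₀ le_rfl j (lt_of_le_of_lt hi hj)]
  · refine hidx (fun x => x < g δ (hd s i₀ x)) i₀ ?_
    intro j hj
    rw [hhd i₀ le_rfl j hj]
    exact hcδ j
  · intro ν hν
    obtain ⟨j₀, hj₀⟩ := hgc' ν hν
    refine hidx (fun x => g ν (hd s i₀ x) ≤ x) (max i₀ j₀) ?_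
    intro j hj
    rw [hhd i₀ le_rfl j (lt_of_le_of_lt (le_max_left _ _) hj)]
    exact ((hj₀ j (lt_of_le_of_lt (le_max_right _ _) hj)).trans (hc1 _ _).le).trans (hc1w j).le
  · intro ν hν hν1
    obtain ⟨j₀, hj₀⟩ := hcol1 ν hν hν1
    refine hidx (fun x => col (hd s (g ν (hd s i₀ x)) x) ∈ C) j₀ ?_
    intro j hj
    rw [hj₀ j hj, hc2]
    exact ha1 _
  · intro ν hν hν1 ζ
    obtain ⟨j₀, hj₀⟩ := hcol1 ν hν hν1
    refine hidx (fun x => ζ < col (hd s (g ν (hd s i₀ x)) x)) (max j₀ ζ) ?_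
    intro j hj
    rw [hj₀ j (lt_of_le_of_lt (le_max_left _ _) hj), hc2]
    exact ((lt_of_le_of_lt (le_max_right _ _) hj).trans (hcj j)).trans (ha2 _)

theorem r_case (h : RegK K) (p : Ultrafilter K) (hp : ∀ X ∈ p, Ub X) (s : K → Finset K)
    (hs1 : ∀ x, ∀ j ∈ s x, j < x) (hs2 : ∀ j, {x | j ∈ s x} ∈ p) {g : L → K → K} (hg : Sc g)
    (hu : Pos g univ) (col : K → K) (hcol : ∀ a, Stat {x | col x = a}) : GoodClass p :=
  ⟨ClsR s g col, fun _ _ hB => hB.1, orth_r s g col,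
    fun X hX C hC => dens_r h p hp s hs1 hs2 hg hu col hcol X hX C hC⟩

end Pool.Agent.LibGP76
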